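import Pool.Agent.Lib.H44Z.M2

/-!
# H44Z, file M3: weights for the gadget of simple 2-matchings, a family of odd sets
-/

set_option autoImplicit false

namespace H44Z

open Finset

variable {V : Type*} [Fintype V] [DecidableEq V]

theorem sum_ind {α : Type*} [Fintype α] [DecidableEq α] (S : Finset α) : ∑ x, ind (x ∈ S) = (S.card : ℝ) := by
  have h1 : ∀ x, ind (x ∈ S) = if x ∈ S then (1 : ℝ) else 0 := by
    intro x
    unfold ind
    by_cases h : x ∈ S
    · rw [if_pos h, if_pos h]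
    · rw [if_neg h, if_neg h]
  rw [Finset.sum_congr rfl (fun x _ => h1 x), Finset.sum_ite_mem, Finset.univ_inter, Finset.sum_const,
    nsmul_eq_mul, mul_one]

/-- The data of a violation of Tutte's condition in the gadget graph (without the universal vertices). -/
structure Fam {ι : Type*} (z : V → V → ℝ) (I : Finset ι) (P : ι → Finset (V × Bool)) (Q : ι → Finset (V × V))
    (uP : Finset (V × Bool)) (uQ : Finset (V × V)) (g : V → V → Prop) : Prop where
  zg : ∀ a b, z a b ≠ 0 → g a b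
  ne : ∀ i ∈ I, ∀ d ∈ Q i, d.1 ≠ d.2
  dP : ∀ i ∈ I, ∀ j ∈ I, ∀ x, x ∈ P i → x ∈ P j → i = j
  dQ : ∀ i ∈ I, ∀ j ∈ I, ∀ x, x ∈ Q i → x ∈ Q j → i = j
  uPn : ∀ i ∈ I, ∀ x ∈ P i, x ∉ uP
  uQn : ∀ i ∈ I, ∀ x ∈ Q i, x ∉ uQ
  c1 : ∀ i ∈ I, ∀ a β b, (a, β) ∈ P i → g a b → (a, b) ∈ Q i ∨ (a, b) ∈ uQ
  c2 : ∀ i ∈ I, ∀ a b β, (a, b) ∈ Q i → (a, β) ∈ P i ∨ (a, β) ∈ uP
  c3 : ∀ i ∈ I, ∀ a b, (a, b) ∈ Q i → (b, a) ∈ Q i ∨ (b, a) ∈ uQ
  odd : ∀ i ∈ I, Odd ((P i).card + (Q i).card)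

variable {ι : Type*} {z : V → V → ℝ} {I : Finset ι} {P : ι → Finset (V × Bool)} {Q : ι → Finset (V × V)}
  {uP : Finset (V × Bool)} {uQ : Finset (V × V)} {g : V → V → Prop}

/-- (A) The cut weights sum to at most `|u|`. -/
theorem Fam.total (hz : Wt z) (h : Fam z I P Q uP uQ g) :
    ∑ i ∈ I, gw z (P i) (Q i) ≤ (uP.card : ℝ) + uQ.card := by
  unfold gw
  rw [Finset.sum_comm]
  have key : ∀ d : V × V, ∑ i ∈ I, gt z (P i) (Q i) d ≤
      z d.1 d.2 / 2 * (ind ((d.1, true) ∈ uP) + ind ((d.1, false) ∈ uP)) + z d.1 d.2 * ind (d ∈ uQ) +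
        (1 - z d.1 d.2) / 2 * (ind (d ∈ uQ) + ind (d.swap ∈ uQ)) := by
    intro d
    have h1 : ∑ i ∈ I, gt z (P i) (Q i) d = z d.1 d.2 / 2 * (∑ i ∈ I, xo ((d.1, true) ∈ P i) (d ∈ Q i) +
        ∑ i ∈ I, xo ((d.1, false) ∈ P i) (d ∈ Q i)) + (1 - z d.1 d.2) / 2 * ∑ i ∈ I, xo (d ∈ Q i) (d.swap ∈ Q i) := by
      unfold gt
      rw [Finset.sum_add_distrib, ← Finset.mul_sum, ← Finset.mul_sum, Finset.sum_add_distrib]
    rw [h1]
    have h2 : ∑ i ∈ I, xo (d ∈ Q i) (d.swap ∈ Q i) ≤ ind (d ∈ uQ) + ind (d.swap ∈ uQ) := by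
      apply sum_xo
      · intro i hi j hj hp hq
        exact h.dQ i hi j hj _ hp hq
      · intro i hi j hj hp hq
        exact h.dQ i hi j hj _ hp hq
      · intro i hi hp
        exact h.uQn i hi _ hp
      · intro i hi hp
        exact h.uQn i hi _ hp
      · intro i hi hp
        exact h.c3 i hi d.1 d.2 hp
      · intro i hi hp
        exact h.c3 i hi d.2 d.1 hp
    have hl := hz.le d.1 d.2
    have hn := hz.nn d.1 d.2
    have h3 : (1 - z d.1 d.2) / 2 * ∑ i ∈ I, xo (d ∈ Q i) (d.swap ∈ Q i) ≤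
        (1 - z d.1 d.2) / 2 * (ind (d ∈ uQ) + ind (d.swap ∈ uQ)) :=
      mul_le_mul_of_nonneg_left h2 (by linarith)
    have h4 : z d.1 d.2 / 2 * (∑ i ∈ I, xo ((d.1, true) ∈ P i) (d ∈ Q i) +
        ∑ i ∈ I, xo ((d.1, false) ∈ P i) (d ∈ Q i)) ≤
        z d.1 d.2 / 2 * (ind ((d.1, true) ∈ uP) + ind ((d.1, false) ∈ uP)) + z d.1 d.2 * ind (d ∈ uQ) := by
      by_cases h0 : z d.1 d.2 = 0
      · rw [h0]
        simp
      · have hg := h.zg _ _ h0
        have h5 : ∀ β : Bool, ∑ i ∈ I, xo ((d.1, β) ∈ P i) (d ∈ Q i) ≤ ind ((d.1, β) ∈ uP) + ind (d ∈ uQ) := by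
          intro β
          apply sum_xo
          · intro i hi j hj hp hq
            exact h.dP i hi j hj _ hp hq
          · intro i hi j hj hp hq
            exact h.dQ i hi j hj _ hp hq
          · intro i hi hp
            exact h.uPn i hi _ hp
          · intro i hi hp
            exact h.uQn i hi _ hp
          · intro i hi hp
            exact h.c1 i hi d.1 β d.2 hp hg
          · intro i hi hp
            exact h.c2 i hi d.1 d.2 β hp
        have h6 := h5 true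
        have h7 := h5 false
        have h8 : z d.1 d.2 / 2 * (∑ i ∈ I, xo ((d.1, true) ∈ P i) (d ∈ Q i) +
            ∑ i ∈ I, xo ((d.1, false) ∈ P i) (d ∈ Q i)) ≤ z d.1 d.2 / 2 *
            ((ind ((d.1, true) ∈ uP) + ind (d ∈ uQ)) + (ind ((d.1, false) ∈ uP) + ind (d ∈ uQ))) :=
          mul_le_mul_of_nonneg_left (add_le_add h6 h7) (by linarith)
        refine h8.trans (le_of_eq ?_)
        ring
    linarith
  refine (Finset.sum_le_sum (fun d _ => key d)).trans (le_of_eq ?_)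
  rw [Finset.sum_add_distrib, Finset.sum_add_distrib]
  have e1 : ∑ d : V × V, z d.1 d.2 / 2 * (ind ((d.1, true) ∈ uP) + ind ((d.1, false) ∈ uP)) = (uP.card : ℝ) := by
    rw [Fintype.sum_prod_type]
    simp only
    have h1 : ∀ a : V, ∑ b, z a b / 2 * (ind ((a, true) ∈ uP) + ind ((a, false) ∈ uP)) =
        ind ((a, true) ∈ uP) + ind ((a, false) ∈ uP) := by
      intro a
      rw [← Finset.sum_mul, ← Finset.sum_div, hz.vt]
      norm_num
    rw [Finset.sum_congr rfl (fun a _ => h1 a), ← sum_ind uP, Fintype.sum_prod_type]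
    apply Finset.sum_congr rfl
    intro a _
    rw [Fintype.sum_bool]
  have e2 : ∑ d : V × V, (1 - z d.1 d.2) / 2 * ind (d.swap ∈ uQ) = ∑ d : V × V, (1 - z d.1 d.2) / 2 * ind (d ∈ uQ) := by
    rw [← Equiv.sum_comp (Equiv.prodComm V V)]
    apply Finset.sum_congr rfl
    intro d _
    simp only [Equiv.prodComm_apply, Prod.fst_swap, Prod.snd_swap, Prod.swap_swap]
    rw [hz.sym d.2 d.1]
  have e3 : ∑ d : V × V, (1 - z d.1 d.2) / 2 * (ind (d ∈ uQ) + ind (d.swap ∈ uQ)) =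
      ∑ d : V × V, (1 - z d.1 d.2) * ind (d ∈ uQ) := by
    have h1 : ∀ d : V × V, (1 - z d.1 d.2) / 2 * (ind (d ∈ uQ) + ind (d.swap ∈ uQ)) =
        (1 - z d.1 d.2) / 2 * ind (d ∈ uQ) + (1 - z d.1 d.2) / 2 * ind (d.swap ∈ uQ) := fun d => by ring
    rw [Finset.sum_congr rfl (fun d _ => h1 d), Finset.sum_add_distrib, e2, ← Finset.sum_add_distrib]
    apply Finset.sum_congr rfl
    intro d _
    ring
  rw [e1, e3, add_assoc, ← Finset.sum_add_distrib]
  congr 1
  rw [← sum_ind uQ]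
  apply Finset.sum_congr rfl
  intro d _
  ring

/-- (C) The accounting. -/
theorem Fam.bound (hz : Wt z) (h : Fam z I P Q uP uQ g) :
    9 * (I.card : ℝ) ≤ 9 * ((uP.card : ℝ) + uQ.card) + 2 * Fintype.card V := by
  classical
  set B := I.filter (fun i => gw z (P i) (Q i) < 1) with hB
  have hBI : ∀ i ∈ B, i ∈ I ∧ gw z (P i) (Q i) < 1 := fun i hi => by
    rw [hB, Finset.mem_filter] at hi
    exact hi
  set W : ι → Finset V := fun i => WW (P i) with hW
  set F : ι → Finset (V × V) := fun i => FF (Q i) with hF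
  have h3 : ∀ i ∈ B, 3 ≤ (F i).card ∧ 3 ≤ (W i).card := fun i hi =>
    B56 hz (hBI i hi).2 (h.ne i (hBI i hi).1) (h.odd i (hBI i hi).1)
  have hWd : ∀ i ∈ B, ∀ j ∈ B, ∀ a, a ∈ W i → a ∈ W j → i = j := by
    intro i hi j hj a ha ha'
    exact h.dP i (hBI i hi).1 j (hBI j hj).1 _ (mem_WW.1 ha) (mem_WW.1 ha')
  set Z : Finset V := univ \ B.biUnion W with hZ
  -- the number of vertices
  have hn : 3 * B.card + Z.card ≤ Fintype.card V := by
    have h4 : (B.biUnion W).card = ∑ i ∈ B, (W i).card := by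
      apply Finset.card_biUnion
      intro i hi j hj hij
      rw [Function.onFun, Finset.disjoint_left]
      intro a ha ha'
      exact hij (hWd i hi j hj a ha ha')
    have h5 : Z.card + (B.biUnion W).card = Fintype.card V := by
      rw [hZ, Finset.card_sdiff_add_card_eq_card (Finset.subset_univ _), Finset.card_univ]
    have h6 : 3 * B.card ≤ ∑ i ∈ B, (W i).card := by
      have h7 : ∑ _i ∈ B, 3 ≤ ∑ i ∈ B, (W i).card := Finset.sum_le_sum (fun i hi => (h3 i hi).2)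
      rw [Finset.sum_const, smul_eq_mul] at h7
      omega
    omega
  -- lower bound for the bad sets
  have hlow : 3 * (B.card : ℝ) - 2 * (Z.card : ℝ) ≤ ∑ i ∈ B, gw z (P i) (Q i) := by
    have h4 : ∀ i ∈ B, 3 - ∑ d ∈ F i, z d.1 d.2 + ∑ d ∈ dl (W i) \ F i, z d.1 d.2 ≤ gw z (P i) (Q i) := by
      intro i hi
      have h5 := B4 hz (hBI i hi).2
      have h6 := B2 hz (hBI i hi).2 (h.ne i (hBI i hi).1)
      rw [← Finset.sum_sdiff h6] at h5
      have h7 : ∑ d ∈ dl (WW (P i)) \ FF (Q i), (if d ∈ FF (Q i) then 1 - z d.1 d.2 else z d.1 d.2) =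
          ∑ d ∈ dl (W i) \ F i, z d.1 d.2 :=
        Finset.sum_congr rfl (fun d hd => by rw [if_neg (Finset.mem_sdiff.1 hd).2])
      have h8 : ∑ d ∈ FF (Q i), (if d ∈ FF (Q i) then 1 - z d.1 d.2 else z d.1 d.2) =
          ((F i).card : ℝ) - ∑ d ∈ F i, z d.1 d.2 := by
        rw [Finset.sum_congr rfl (fun d hd => by rw [if_pos hd] :
          ∀ d ∈ FF (Q i), (if d ∈ FF (Q i) then 1 - z d.1 d.2 else z d.1 d.2) = 1 - z d.1 d.2),
          Finset.sum_sub_distrib, Finset.sum_const, nsmul_eq_mul, mul_one]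
      rw [h7, h8] at h5
      have h9 : (3 : ℝ) ≤ ((F i).card : ℝ) := by exact_mod_cast (h3 i hi).1
      linarith
    have h5 := Finset.sum_le_sum h4
    rw [Finset.sum_add_distrib, Finset.sum_sub_distrib, Finset.sum_const, nsmul_eq_mul] at h5
    -- the unions
    have hFd : ∀ i ∈ B, ∀ j ∈ B, i ≠ j → Disjoint (F i) (F j) := by
      intro i hi j hj hij
      rw [Finset.disjoint_left]
      intro d hd hd'
      exact hij (h.dQ i (hBI i hi).1 j (hBI j hj).1 d (mem_FF.1 hd).1 (mem_FF.1 hd').1)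
    have hEd : ∀ i ∈ B, ∀ j ∈ B, i ≠ j → Disjoint (dl (W i) \ F i) (dl (W j) \ F j) := by
      intro i hi j hj hij
      rw [Finset.disjoint_left]
      intro d hd hd'
      exact hij (hWd i hi j hj d.1 (mem_dl.1 (Finset.mem_sdiff.1 hd).1).1 (mem_dl.1 (Finset.mem_sdiff.1 hd').1).1)
    have h6 : ∑ i ∈ B, ∑ d ∈ F i, z d.1 d.2 = ∑ d ∈ B.biUnion F, z d.1 d.2 := (Finset.sum_biUnion hFd).symm
    have h7 : ∑ i ∈ B, ∑ d ∈ dl (W i) \ F i, z d.1 d.2 = ∑ d ∈ B.biUnion (fun i => dl (W i) \ F i), z d.1 d.2 :=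
      (Finset.sum_biUnion hEd).symm
    rw [h6, h7] at h5
    set FU := B.biUnion F with hFU
    set EU := B.biUnion (fun i => dl (W i) \ F i) with hEU
    have h8 : ∑ d ∈ FU, z d.1 d.2 = ∑ d ∈ FU.filter (fun d => d.2 ∈ Z), z d.1 d.2 +
        ∑ d ∈ FU.filter (fun d => ¬ d.2 ∈ Z), z d.1 d.2 := (Finset.sum_filter_add_sum_filter_not FU _ _).symm
    have h9 : ∑ d ∈ FU.filter (fun d => d.2 ∈ Z), z d.1 d.2 ≤ 2 * (Z.card : ℝ) := by
      have h10 : ∑ d ∈ (univ : Finset V) ×ˢ Z, z d.1 d.2 = 2 * (Z.card : ℝ) := by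
        rw [Finset.sum_product_right]
        have h11 : ∀ b ∈ Z, ∑ a, z a b = 2 := by
          intro b _
          rw [← hz.vt b]
          exact Finset.sum_congr rfl (fun a _ => hz.sym a b)
        rw [Finset.sum_congr rfl h11, Finset.sum_const, nsmul_eq_mul, mul_comm]
      rw [← h10]
      apply Finset.sum_le_sum_of_subset_of_nonneg
      · intro d hd
        rw [Finset.mem_product]
        exact ⟨Finset.mem_univ _, (Finset.mem_filter.1 hd).2⟩
      · intro d _ _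
        exact hz.nn _ _
    have h10 : ∑ d ∈ FU.filter (fun d => ¬ d.2 ∈ Z), z d.1 d.2 ≤ ∑ d ∈ EU, z d.1 d.2 := by
      have h11 : ∑ d ∈ FU.filter (fun d => ¬ d.2 ∈ Z), z d.1 d.2 =
          ∑ d ∈ (FU.filter (fun d => ¬ d.2 ∈ Z)).image Prod.swap, z d.1 d.2 := by
        rw [Finset.sum_image]
        · apply Finset.sum_congr rfl
          intro d _
          rw [Prod.fst_swap, Prod.snd_swap, hz.sym]
        · intro a _ b _ hab
          exact Prod.swap_injective hab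
      rw [h11]
      apply Finset.sum_le_sum_of_subset_of_nonneg
      · intro e he
        obtain ⟨d, hd, rfl⟩ := Finset.mem_image.1 he
        rw [Finset.mem_filter] at hd
        obtain ⟨hd1, hd2⟩ := hd
        obtain ⟨i, hi, hdi⟩ := Finset.mem_biUnion.1 hd1
        have hd3 : d.2 ∈ B.biUnion W := by
          by_contra h12
          exact hd2 (Finset.mem_sdiff.2 ⟨Finset.mem_univ _, h12⟩)
        obtain ⟨j, hj, hdj⟩ := Finset.mem_biUnion.1 hd3
        have h13 := mem_dl.1 (B2 hz (hBI i hi).2 (h.ne i (hBI i hi).1) hdi)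
        have hij : i ≠ j := by
          rintro rfl
          exact h13.2 hdj
        refine Finset.mem_biUnion.2 ⟨j, hj, ?_⟩
        rw [Finset.mem_sdiff, mem_dl]
        refine ⟨⟨hdj, ?_⟩, ?_⟩
        · intro h14
          exact hij (hWd i hi j hj d.1 h13.1 h14)
        · intro h14
          have h15 := mem_FF.1 hdi
          rcases h.c3 i (hBI i hi).1 d.1 d.2 h15.1 with h16 | h16
          · exact h15.2 h16
          · exact h.uQn j (hBI j hj).1 _ (mem_FF.1 h14).1 h16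
      · intro d _ _
        exact hz.nn _ _
    linarith
  -- conclusion
  have htot := h.total hz
  have hsplit : ∑ i ∈ I, gw z (P i) (Q i) = ∑ i ∈ B, gw z (P i) (Q i) +
      ∑ i ∈ I.filter (fun i => ¬ gw z (P i) (Q i) < 1), gw z (P i) (Q i) :=
    (Finset.sum_filter_add_sum_filter_not I _ _).symm
  have hrest : ((I.filter (fun i => ¬ gw z (P i) (Q i) < 1)).card : ℝ) ≤
      ∑ i ∈ I.filter (fun i => ¬ gw z (P i) (Q i) < 1), gw z (P i) (Q i) := by
    have h4 : ∑ _i ∈ I.filter (fun i => ¬ gw z (P i) (Q i) < 1), (1 : ℝ) ≤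
        ∑ i ∈ I.filter (fun i => ¬ gw z (P i) (Q i) < 1), gw z (P i) (Q i) := by
      apply Finset.sum_le_sum
      intro i hi
      exact not_lt.1 (Finset.mem_filter.1 hi).2
    rw [Finset.sum_const, nsmul_eq_mul, mul_one] at h4
    exact h4
  have hcard : (I.card : ℝ) = B.card + (I.filter (fun i => ¬ gw z (P i) (Q i) < 1)).card := by
    rw [hB]
    exact_mod_cast (Finset.card_filter_add_card_filter_not (s := I) (fun i => gw z (P i) (Q i) < 1)).symm
  have hBnn : 0 ≤ ∑ i ∈ B, gw z (P i) (Q i) := Finset.sum_nonneg (fun i _ => gw_nonneg hz _ _)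
  have hn' : 3 * (B.card : ℝ) + Z.card ≤ Fintype.card V := by exact_mod_cast hn
  linarith

end H44Z
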