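import Pool.Agent.Lib.H44Z.M1
import Pool.Agent.Lib.H44Z.M3
import Pool.Agent.Lib.H63F.D

/-!
# H44Z, file M4: a subgraph of maximum degree at most 2 with at least `8 n / 9` edges
-/

set_option autoImplicit false

namespace H44Z

open Finset H63F

variable {V : Type*} [Fintype V] [DecidableEq V]

/-! ## The weights of a fractional Hamiltonian cycle -/

theorem cutw_eq (y : Sym2 V → ℝ) (S : Finset V) : cutw y S = ∑ a ∈ S, ∑ b ∈ Sᶜ, y s(a, b) := by
  classical
  rw [← Finset.sum_product (f := fun d : V × V => y s(d.1, d.2))]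
  have h1 : ∑ d ∈ S ×ˢ Sᶜ, y s(d.1, d.2) = ∑ e ∈ (S ×ˢ Sᶜ).image (fun d : V × V => s(d.1, d.2)), y e := by
    rw [Finset.sum_image]
    rintro ⟨a, b⟩ hab ⟨a', b'⟩ hab' h
    rw [Finset.mem_coe, Finset.mem_product, Finset.mem_compl] at hab hab'
    simp only at h hab hab'
    rcases Sym2.eq_iff.1 h with ⟨h2, h3⟩ | ⟨h2, h3⟩
    · rw [h2, h3]
    · exact absurd (h2 ▸ hab.1) hab'.2
  rw [h1]
  unfold cutw
  have h2 : ∀ e : Sym2 V, e ∈ (S ×ˢ Sᶜ).image (fun d : V × V => s(d.1, d.2)) ↔ ∃ a ∈ S, ∃ b, b ∉ S ∧ e = s(a, b) := by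
    intro e
    rw [Finset.mem_image]
    constructor
    · rintro ⟨d, hd, rfl⟩
      rw [Finset.mem_product, Finset.mem_compl] at hd
      exact ⟨d.1, hd.1, d.2, hd.2, rfl⟩
    · rintro ⟨a, ha, b, hb, rfl⟩
      exact ⟨(a, b), Finset.mem_product.2 ⟨ha, Finset.mem_compl.2 hb⟩, rfl⟩
  rw [← Finset.sum_subset (Finset.subset_univ ((S ×ˢ Sᶜ).image (fun d : V × V => s(d.1, d.2))))]
  · apply Finset.sum_congr rfl
    intro e he
    unfold px
    rw [if_pos ((h2 e).1 he), mul_one]
  · intro e _ he
    unfold px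
    rw [if_neg (fun h => he ((h2 e).2 h)), mul_zero]

theorem wt_of {G : Finset (Sym2 V)} {y : Sym2 V → ℝ} (h : FracHam G y) (hn : 3 ≤ Fintype.card V) :
    Wt (fun a b => y s(a, b)) := by
  have hd : ∀ a, y s(a, a) = 0 := fun a => h.supp _ (h.loop a)
  have hs : ∀ a b, y s(a, b) = y s(b, a) := fun a b => by rw [Sym2.eq_swap]
  have hv : ∀ a, ∑ b, y s(a, b) = 2 := by
    intro a
    have h1 := h.vert a
    rw [cutw_eq, Finset.sum_singleton] at h1
    have h2 := Finset.sum_compl_add_sum ({a} : Finset V) (fun b => y s(a, b))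
    rw [Finset.sum_singleton, hd, add_zero, h1] at h2
    exact h2.symm
  refine ⟨fun a b => h.nonneg _, ?_, hs, hd, hv, ?_⟩
  · intro a b
    by_cases hab : a = b
    · subst hab
      rw [hd]
      norm_num
    · have hne : ({a, b} : Finset V) ≠ univ := by
        intro h1
        have h2 := congrArg Finset.card h1
        rw [Finset.card_pair hab, Finset.card_univ] at h2
        omega
      have h1 := h.cut {a, b} ⟨a, by simp⟩ hne
      rw [cutw_eq, Finset.sum_pair hab] at h1
      have h2 : ∀ p q : V, p ≠ q → ∑ c ∈ ({p, q} : Finset V)ᶜ, y s(p, c) = 2 - y s(p, q) := by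
        intro p q hpq
        have h6 := Finset.sum_compl_add_sum ({p, q} : Finset V) (fun c => y s(p, c))
        rw [Finset.sum_pair hpq, hd, hv] at h6
        linarith
      have h3 := h2 a b hab
      have h4 := h2 b a (fun h5 => hab h5.symm)
      rw [Finset.pair_comm b a] at h4
      rw [h3, h4, hs b a] at h1
      linarith
  · intro W hW hu
    have h1 := h.cut W hW hu
    rw [cutw_eq] at h1
    exact h1

/-! ## The gadget graph -/

/-- The darts of `G`. -/
abbrev Dart (G : Finset (Sym2 V)) : Type _ := {d : V × V // s(d.1, d.2) ∈ G}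

/-- The nodes: two copies of every vertex, the darts, `D` universal nodes. -/
abbrev Node (G : Finset (Sym2 V)) (D : ℕ) : Type _ := (V × Bool) ⊕ (Dart G ⊕ Fin D)

/-- The relation of the gadget graph. -/
def rl {G : Finset (Sym2 V)} {D : ℕ} : Node G D → Node G D → Prop
  | Sum.inl p, Sum.inr (Sum.inl d) => p.1 = d.1.1
  | Sum.inr (Sum.inl d), Sum.inr (Sum.inl d') => d'.1 = d.1.swap
  | Sum.inr (Sum.inr _), _ => True
  | _, _ => False

/-- The gadget graph. -/
def gad (G : Finset (Sym2 V)) (D : ℕ) : SimpleGraph (Node G D) := SimpleGraph.fromRel rl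

/-- The reversed dart. -/
def dsw {G : Finset (Sym2 V)} (d : Dart G) : Dart G := ⟨d.1.swap, by
  have := d.2
  rw [Sym2.eq_swap] at this
  exact this⟩

omit [Fintype V] [DecidableEq V] in
theorem dsw_dsw {G : Finset (Sym2 V)} (d : Dart G) : dsw (dsw d) = d := by
  apply Subtype.ext
  simp [dsw]

omit [Fintype V] [DecidableEq V] in
theorem dsw_ne {G : Finset (Sym2 V)} (hl : ∀ v, s(v, v) ∉ G) (d : Dart G) : dsw d ≠ d := by
  intro h
  have h1 := congrArg (fun x : Dart G => x.1.1) h
  simp only [dsw, Prod.fst_swap] at h1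
  have h2 := d.2
  rw [h1] at h2
  exact hl _ h2

theorem even_nodes {G : Finset (Sym2 V)} (hl : ∀ v, s(v, v) ∉ G) (q : ℕ) :
    Even (Fintype.card (Node G (2 * q))) := by
  have h1 : Even (Fintype.card (Dart G)) := by
    have h3 : ∑ _d : Dart G, (1 : ZMod 2) = 0 := by
      apply Finset.sum_involution (fun d _ => dsw d)
      · intro d _
        decide
      · intro d _ _
        exact dsw_ne hl d
      · intro d _
        exact Finset.mem_univ _
      · intro d _
        exact dsw_dsw d
    rw [Finset.sum_const, nsmul_eq_mul, mul_one, Finset.card_univ] at h3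
    exact (ZMod.natCast_eq_zero_iff_even).1 h3
  rw [Fintype.card_sum, Fintype.card_prod, Fintype.card_bool, Fintype.card_sum, Fintype.card_fin]
  rw [Nat.even_iff] at h1 ⊢
  omega

/-- The gadget graph has a perfect matching if `D = 2 * (n / 9)`. -/
theorem gad_perfect {G : Finset (Sym2 V)} {y : Sym2 V → ℝ} (h : FracHam G y) (hn : 3 ≤ Fintype.card V) :
    ∃ M : (gad G (2 * (Fintype.card V / 9))).Subgraph, M.IsPerfectMatching := by
  classical
  by_contra hno
  set q := Fintype.card V / 9 with hq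
  obtain ⟨u, K, hodd, hdis, hKu, hcl, hcard⟩ := tutte_family _ (even_nodes h.loop q) hno
  have hadj1 : ∀ (p : V × Bool) (d : Dart G), p.1 = d.1.1 →
      (gad G (2 * q)).Adj (Sum.inl p) (Sum.inr (Sum.inl d)) := by
    intro p d hpd
    rw [gad, SimpleGraph.fromRel_adj]
    exact ⟨by simp, Or.inl hpd⟩
  have hadj2 : ∀ (d : Dart G), (gad G (2 * q)).Adj (Sum.inr (Sum.inl d)) (Sum.inr (Sum.inl (dsw d))) := by
    intro d
    rw [gad, SimpleGraph.fromRel_adj]
    refine ⟨?_, Or.inl rfl⟩
    intro h1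
    exact dsw_ne h.loop d (Sum.inl_injective (Sum.inr_injective h1)).symm
  have hadj3 : ∀ (k : Fin (2 * q)) (x : Node G (2 * q)), x ≠ Sum.inr (Sum.inr k) →
      (gad G (2 * q)).Adj x (Sum.inr (Sum.inr k)) := by
    intro k x hx
    rw [gad, SimpleGraph.fromRel_adj]
    exact ⟨hx, Or.inr trivial⟩
  have hne : ∀ C ∈ K, C.Nonempty := fun C hC => Finset.card_pos.1 (hodd C hC).pos
  -- the universal nodes are in `u`
  have hU : ∀ k : Fin (2 * q), Sum.inr (Sum.inr k) ∈ u := by
    intro k
    by_contra hk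
    have h1 : ∀ C ∈ K, (Sum.inr (Sum.inr k) : Node G (2 * q)) ∈ C := by
      intro C hC
      obtain ⟨x, hx⟩ := hne C hC
      by_cases hxk : x = Sum.inr (Sum.inr k)
      · rw [← hxk]; exact hx
      · exact hcl C hC x hx _ (hadj3 k x hxk) hk
    have h2 : 1 < K.card := by omega
    obtain ⟨C, hC, C', hC', hCC⟩ := Finset.one_lt_card.1 h2
    exact hCC (hdis C hC C' hC' _ (h1 C hC) (h1 C' hC'))
  have hU2 : u.toRight.toRight = univ := by
    apply Finset.eq_univ_of_forall
    intro k
    rw [Finset.mem_toRight, Finset.mem_toRight]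
    exact hU k
  have hCU : ∀ C ∈ K, C.toRight.toRight = ∅ := by
    intro C hC
    rw [Finset.eq_empty_iff_forall_notMem]
    intro k hk
    rw [Finset.mem_toRight, Finset.mem_toRight] at hk
    exact hKu C hC _ hk (hU k)
  have hcardS : ∀ S : Finset (Node G (2 * q)), S.card = S.toLeft.card + (S.toRight.toLeft.card + S.toRight.toRight.card) := by
    intro S
    rw [Finset.card_toLeft_add_card_toRight, Finset.card_toLeft_add_card_toRight]
  let Q : Finset (Node G (2 * q)) → Finset (V × V) := fun S => S.toRight.toLeft.image Subtype.val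
  have hQ : ∀ (S : Finset (Node G (2 * q))) (d : V × V), d ∈ Q S ↔ ∃ hd : s(d.1, d.2) ∈ G,
      (Sum.inr (Sum.inl ⟨d, hd⟩) : Node G (2 * q)) ∈ S := by
    intro S d
    simp only [Q]
    rw [Finset.mem_image]
    constructor
    · rintro ⟨e, he, rfl⟩
      rw [Finset.mem_toLeft, Finset.mem_toRight] at he
      exact ⟨e.2, he⟩
    · rintro ⟨hd, h1⟩
      exact ⟨⟨d, hd⟩, by rw [Finset.mem_toLeft, Finset.mem_toRight]; exact h1, rfl⟩
  have hQc : ∀ S : Finset (Node G (2 * q)), (Q S).card = S.toRight.toLeft.card := by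
    intro S
    simp only [Q]
    exact Finset.card_image_of_injective _ Subtype.val_injective
  have hz := wt_of h hn
  have hfam : Fam (fun a b => y s(a, b)) K (fun C => C.toLeft) Q u.toLeft (Q u) (fun a b => s(a, b) ∈ G) := by
    constructor
    · intro a b hab
      by_contra h1
      exact hab (h.supp _ h1)
    · intro C _ d hd h1
      obtain ⟨hd1, _⟩ := (hQ C d).1 hd
      rw [h1] at hd1
      exact h.loop _ hd1
    · intro C hC C' hC' x hx hx'
      rw [Finset.mem_toLeft] at hx hx'
      exact hdis C hC C' hC' _ hx hx'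
    · intro C hC C' hC' x hx hx'
      obtain ⟨h1, h2⟩ := (hQ C x).1 hx
      obtain ⟨h3, h4⟩ := (hQ C' x).1 hx'
      exact hdis C hC C' hC' _ h2 h4
    · intro C hC x hx hx'
      rw [Finset.mem_toLeft] at hx hx'
      exact hKu C hC _ hx hx'
    · intro C hC x hx hx'
      obtain ⟨h1, h2⟩ := (hQ C x).1 hx
      obtain ⟨h3, h4⟩ := (hQ u x).1 hx'
      exact hKu C hC _ h2 h4
    · intro C hC a β b hab hg
      rw [Finset.mem_toLeft] at hab
      by_cases h1 : (Sum.inr (Sum.inl ⟨(a, b), hg⟩) : Node G (2 * q)) ∈ u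
      · exact Or.inr ((hQ u (a, b)).2 ⟨hg, h1⟩)
      · exact Or.inl ((hQ C (a, b)).2 ⟨hg, hcl C hC _ hab _ (hadj1 (a, β) ⟨(a, b), hg⟩ rfl) h1⟩)
    · intro C hC a b β hab
      obtain ⟨h1, h2⟩ := (hQ C (a, b)).1 hab
      rw [Finset.mem_toLeft, Finset.mem_toLeft]
      by_cases h3 : (Sum.inl (a, β) : Node G (2 * q)) ∈ u
      · exact Or.inr h3
      · exact Or.inl (hcl C hC _ h2 _ (hadj1 (a, β) ⟨(a, b), h1⟩ rfl).symm h3)
    · intro C hC a b hab
      obtain ⟨h1, h2⟩ := (hQ C (a, b)).1 hab
      have h3 := hadj2 ⟨(a, b), h1⟩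
      by_cases h4 : (Sum.inr (Sum.inl (dsw ⟨(a, b), h1⟩)) : Node G (2 * q)) ∈ u
      · exact Or.inr ((hQ u (b, a)).2 ⟨(dsw ⟨(a, b), h1⟩ : Dart G).2, h4⟩)
      · exact Or.inl ((hQ C (b, a)).2 ⟨(dsw ⟨(a, b), h1⟩ : Dart G).2, hcl C hC _ h2 _ h3 h4⟩)
    · intro C hC
      have h1 := hcardS C
      rw [hCU C hC, Finset.card_empty] at h1
      rw [hQc]
      have h2 := hodd C hC
      rw [h1, add_zero] at h2
      exact h2
  have hb := hfam.bound hz
  have hb' : 9 * K.card ≤ 9 * (u.toLeft.card + (Q u).card) + 2 * Fintype.card V := by exact_mod_cast hb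
  have h1 := hcardS u
  rw [hU2, Finset.card_univ, Fintype.card_fin] at h1
  rw [hQc] at hb'
  omega

/-- THEOREM M. If `G` carries a fractional Hamiltonian cycle (`n ≥ 3`), then `G` has a subgraph of maximum degree at
most 2 (disjoint paths and cycles) with at least `8 n / 9` edges. -/
theorem two_matching {G : Finset (Sym2 V)} {y : Sym2 V → ℝ} (h : FracHam G y) (hn : 3 ≤ Fintype.card V) :
    ∃ F : Finset (Sym2 V), F ⊆ G ∧ (∀ v, (F.filter (fun e => v ∈ e)).card ≤ 2) ∧
      8 * Fintype.card V ≤ 9 * F.card := by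
  classical
  obtain ⟨M, hM⟩ := gad_perfect h hn
  set q := Fintype.card V / 9 with hq
  obtain ⟨f, hff, hf⟩ := invol_of_perfect hM
  have hfi : Function.Injective f := fun a b hab => by rw [← hff a, hab, hff]
  -- the shape of the edges
  have hfl : ∀ p : V × Bool, (∃ d : Dart G, f (Sum.inl p) = Sum.inr (Sum.inl d) ∧ p.1 = d.1.1) ∨
      ∃ k, f (Sum.inl p) = Sum.inr (Sum.inr k) := by
    intro p
    have h1 := hf (Sum.inl p)
    rw [gad, SimpleGraph.fromRel_adj] at h1
    rcases h2 : f (Sum.inl p) with p' | (d | k)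
    · rw [h2] at h1
      rcases h1.2 with h3 | h3
      · exact absurd h3 (by simp [rl])
      · exact absurd h3 (by simp [rl])
    · rw [h2] at h1
      left
      refine ⟨d, rfl, ?_⟩
      rcases h1.2 with h3 | h3
      · exact h3
      · exact absurd h3 (by simp [rl])
    · right
      exact ⟨k, rfl⟩
  have hfd : ∀ d d' : Dart G, f (Sum.inr (Sum.inl d)) = Sum.inr (Sum.inl d') → d' = dsw d := by
    intro d d' h2
    have h1 := hf (Sum.inr (Sum.inl d))
    rw [gad, SimpleGraph.fromRel_adj, h2] at h1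
    rcases h1.2 with h3 | h3
    · apply Subtype.ext
      exact h3
    · have h4 : d.1 = d'.1.swap := h3
      apply Subtype.ext
      simp only [dsw]
      rw [h4, Prod.swap_swap]
  set X : Finset (Dart G) := univ.filter (fun d => ∃ p : V × Bool, f (Sum.inr (Sum.inl d)) = Sum.inl p) with hX
  set Y : Finset (Dart G) := X.filter (fun d => dsw d ∈ X) with hY
  set PU : Finset (V × Bool) := univ.filter (fun p => ∃ k, f (Sum.inl p) = Sum.inr (Sum.inr k)) with hPU
  have hmX : ∀ d, d ∈ X ↔ ∃ p : V × Bool, f (Sum.inr (Sum.inl d)) = Sum.inl p := by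
    intro d
    rw [hX, Finset.mem_filter]
    simp
  have hmY : ∀ d, d ∈ Y ↔ (d ∈ X ∧ dsw d ∈ X) := by
    intro d
    rw [hY, Finset.mem_filter]
  -- copies and darts
  have hc1 : 2 * Fintype.card V ≤ PU.card + X.card := by
    have h1 : PU.card + (univ.filter (fun p : V × Bool => ¬ ∃ k, f (Sum.inl p) = Sum.inr (Sum.inr k))).card =
        2 * Fintype.card V := by
      rw [hPU, Finset.card_filter_add_card_filter_not, Finset.card_univ, Fintype.card_prod, Fintype.card_bool]
      ring
    have h2 : (univ.filter (fun p : V × Bool => ¬ ∃ k, f (Sum.inl p) = Sum.inr (Sum.inr k))).card ≤ X.card := by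
      have h3 : ((univ.filter (fun p : V × Bool => ¬ ∃ k, f (Sum.inl p) = Sum.inr (Sum.inr k))).image
          (fun p => f (Sum.inl p))).card = (univ.filter (fun p : V × Bool => ¬ ∃ k, f (Sum.inl p) = Sum.inr (Sum.inr k))).card :=
        Finset.card_image_of_injective _ (fun a b hab => Sum.inl_injective (hfi hab))
      have h4 : (X.image (fun d => (Sum.inr (Sum.inl d) : Node G (2 * q)))).card = X.card :=
        Finset.card_image_of_injective _ (fun a b hab => Sum.inl_injective (Sum.inr_injective hab))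
      rw [← h3, ← h4]
      apply Finset.card_le_card
      intro x hx
      obtain ⟨p, hp, rfl⟩ := Finset.mem_image.1 hx
      rw [Finset.mem_filter] at hp
      rcases hfl p with ⟨d, hd, _⟩ | h5
      · rw [hd]
        refine Finset.mem_image.2 ⟨d, (hmX d).2 ⟨p, ?_⟩, rfl⟩
        rw [← hd, hff]
      · exact absurd h5 hp.2
    omega
  -- the universal nodes
  have hc2 : PU.card + (X \ Y).card ≤ 2 * q := by
    have h1 : (PU.image (fun p => f (Sum.inl p)) ∪
        (X \ Y).image (fun d => f (Sum.inr (Sum.inl (dsw d))))).card = PU.card + (X \ Y).card := by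
      rw [Finset.card_union_of_disjoint, Finset.card_image_of_injective, Finset.card_image_of_injective]
      · intro a b hab
        have h2 := Sum.inl_injective (Sum.inr_injective (hfi hab))
        rw [← dsw_dsw a, h2, dsw_dsw]
      · intro a b hab
        exact Sum.inl_injective (hfi hab)
      · rw [Finset.disjoint_left]
        intro x hx hx'
        obtain ⟨p, _, rfl⟩ := Finset.mem_image.1 hx
        obtain ⟨d, _, hd⟩ := Finset.mem_image.1 hx'
        have := hfi hd
        simp at this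
    rw [← h1]
    have h2 : ((univ : Finset (Fin (2 * q))).image (fun k => (Sum.inr (Sum.inr k) : Node G (2 * q)))).card = 2 * q := by
      rw [Finset.card_image_of_injective _ (fun a b hab => Sum.inr_injective (Sum.inr_injective hab)),
        Finset.card_univ, Fintype.card_fin]
    refine le_trans (Finset.card_le_card ?_) (le_of_eq h2)
    intro x hx
    rcases Finset.mem_union.1 hx with h3 | h3
    · obtain ⟨p, hp, rfl⟩ := Finset.mem_image.1 h3
      rw [hPU, Finset.mem_filter] at hp
      obtain ⟨k, hk⟩ := hp.2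
      rw [hk]
      exact Finset.mem_image.2 ⟨k, Finset.mem_univ _, rfl⟩
    · obtain ⟨d, hd, rfl⟩ := Finset.mem_image.1 h3
      rw [Finset.mem_sdiff, hmY] at hd
      have hds : dsw d ∉ X := fun h4 => hd.2 ⟨hd.1, h4⟩
      rcases h4 : f (Sum.inr (Sum.inl (dsw d))) with p | (d' | k)
      · exact absurd ((hmX _).2 ⟨p, h4⟩) hds
      · exfalso
        have h5 := hfd _ _ h4
        rw [dsw_dsw] at h5
        subst h5
        obtain ⟨p, hp⟩ := (hmX _).1 hd.1
        have h6 := hff (Sum.inr (Sum.inl (dsw d')))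
        rw [h4, hp] at h6
        simp at h6
      · exact Finset.mem_image.2 ⟨k, Finset.mem_univ _, rfl⟩
  have hYX : Y ⊆ X := Finset.filter_subset _ _
  have hc3 : (X \ Y).card + Y.card = X.card := Finset.card_sdiff_add_card_eq_card hYX
  -- the subgraph
  refine ⟨Y.image (fun d => s(d.1.1, d.1.2)), ?_, ?_, ?_⟩
  · intro e he
    obtain ⟨d, _, rfl⟩ := Finset.mem_image.1 he
    exact d.2
  · intro v
    have h1 : (Y.image (fun d : Dart G => s(d.1.1, d.1.2))).filter (fun e => v ∈ e) ⊆
        (X.filter (fun d => d.1.1 = v)).image (fun d : Dart G => s(d.1.1, d.1.2)) := by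
      intro e he
      rw [Finset.mem_filter] at he
      obtain ⟨d, hd, rfl⟩ := Finset.mem_image.1 he.1
      rw [hmY] at hd
      rcases Sym2.mem_iff.1 he.2 with h2 | h2
      · exact Finset.mem_image.2 ⟨d, Finset.mem_filter.2 ⟨hd.1, h2.symm⟩, rfl⟩
      · refine Finset.mem_image.2 ⟨dsw d, Finset.mem_filter.2 ⟨hd.2, ?_⟩, ?_⟩
        · simp only [dsw, Prod.fst_swap]
          exact h2.symm
        · simp only [dsw, Prod.fst_swap, Prod.snd_swap]
          exact Sym2.eq_swap
    refine (Finset.card_le_card h1).trans (Finset.card_image_le.trans ?_)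
    have h2 : ((X.filter (fun d => d.1.1 = v)).image (fun d => f (Sum.inr (Sum.inl d)))).card =
        (X.filter (fun d => d.1.1 = v)).card :=
      Finset.card_image_of_injective _ (fun a b hab => Sum.inl_injective (Sum.inr_injective (hfi hab)))
    rw [← h2]
    have h3 : ((univ : Finset Bool).image (fun β => (Sum.inl (v, β) : Node G (2 * q)))).card ≤ 2 :=
      Finset.card_image_le.trans (by simp)
    refine le_trans (Finset.card_le_card ?_) h3
    intro x hx
    obtain ⟨d, hd, rfl⟩ := Finset.mem_image.1 hx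
    rw [Finset.mem_filter] at hd
    obtain ⟨p, hp⟩ := (hmX d).1 hd.1
    have h4 : p.1 = v := by
      rcases hfl p with ⟨d', hd', h5⟩ | ⟨k, hk⟩
      · rw [← hp, hff] at hd'
        have h6 := Sum.inl_injective (Sum.inr_injective hd')
        rw [h5, ← h6, hd.2]
      · rw [← hp, hff] at hk
        simp at hk
    rw [hp]
    exact Finset.mem_image.2 ⟨p.2, Finset.mem_univ _, by rw [← h4]⟩
  · have h1 : Y.card ≤ 2 * (Y.image (fun d : Dart G => s(d.1.1, d.1.2))).card := by
      apply Finset.card_le_mul_card_image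
      intro e he
      obtain ⟨d, hd, rfl⟩ := Finset.mem_image.1 he
      have h2 : Y.filter (fun d' : Dart G => s(d'.1.1, d'.1.2) = s(d.1.1, d.1.2)) ⊆ {d, dsw d} := by
        intro d' hd'
        rw [Finset.mem_filter] at hd'
        rw [Finset.mem_insert, Finset.mem_singleton]
        rcases Sym2.eq_iff.1 hd'.2 with ⟨h3, h4⟩ | ⟨h3, h4⟩
        · left
          exact Subtype.ext (Prod.ext h3 h4)
        · right
          exact Subtype.ext (Prod.ext h3 h4)
      exact (Finset.card_le_card h2).trans Finset.card_le_two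
    omega

end H44Z
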