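import Mathlib

/-!
# H44Z, file E1: odd ears and small parity subgraphs

`G` is a set of edges, `M` a perfect or near-perfect matching (an involution). A set `H` of vertices closed under `M`
is enlarged along odd ears (alternating paths); along the way every even set `T` of vertices is the set of odd degree
vertices of a multiset of at most half as many edges as there are vertices.
-/

set_option autoImplicit false

namespace H44Z

open Finset

variable {V : Type*} [Fintype V] [DecidableEq V]

/-- The degrees mod 2 of a list of (oriented) edges. -/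
def bdy (L : List (V × V)) (v : V) : ZMod 2 :=
  (L.map (fun e => (if e.1 = v then (1 : ZMod 2) else 0) + (if e.2 = v then (1 : ZMod 2) else 0))).sum

/-- All edges of the list are in `G`. -/
def InG (G : Finset (Sym2 V)) (L : List (V × V)) : Prop :=
  ∀ e ∈ L, s(e.1, e.2) ∈ G

omit [Fintype V] in
theorem bdy_nil (v : V) : bdy ([] : List (V × V)) v = 0 := by
  simp [bdy]

omit [Fintype V] in
theorem bdy_append (L L' : List (V × V)) (v : V) : bdy (L ++ L') v = bdy L v + bdy L' v := by
  simp [bdy]

omit [Fintype V] in
theorem bdy_cons (e : V × V) (L : List (V × V)) (v : V) :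
    bdy (e :: L) v = ((if e.1 = v then (1 : ZMod 2) else 0) + (if e.2 = v then (1 : ZMod 2) else 0)) + bdy L v := by
  simp [bdy]

omit [Fintype V] in
theorem bdy_single (e : V × V) (v : V) :
    bdy [e] v = ((if e.1 = v then (1 : ZMod 2) else 0) + (if e.2 = v then (1 : ZMod 2) else 0)) := by
  simp [bdy]

theorem sum_bdy (L : List (V × V)) : ∑ v, bdy L v = 0 := by
  induction L with
  | nil => simp [bdy]
  | cons e L ih =>
    simp only [bdy_cons, Finset.sum_add_distrib, ih, Finset.sum_ite_eq, Finset.mem_univ, if_true, add_zero]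
    decide

omit [Fintype V] [DecidableEq V] in
theorem InG.append {G : Finset (Sym2 V)} {L L' : List (V × V)} (h : InG G L) (h' : InG G L') : InG G (L ++ L') := by
  intro e he
  rcases List.mem_append.1 he with h1 | h1
  · exact h e h1
  · exact h' e h1

/-- The bits along an ear: the edge number `i` is used iff `bit i = 1`. -/
def bit (T : V → ZMod 2) (c : ℕ → V) (β : ZMod 2) : ℕ → ZMod 2
  | 0 => β
  | i + 1 => bit T c β i + T (c i)

/-- The edges of the ear `a, c 0, .., c N` which are used. -/
def earL (T : V → ZMod 2) (c : ℕ → V) (a : V) (β : ZMod 2) : ℕ → List (V × V)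
  | 0 => if β = 1 then [(a, c 0)] else []
  | i + 1 => earL T c a β i ++ (if bit T c β (i + 1) = 1 then [(c i, c (i + 1))] else [])

theorem z2 (x : ZMod 2) : x = 0 ∨ x = 1 := by
  revert x; decide

omit [Fintype V] in
theorem bdy_earL (T : V → ZMod 2) (c : ℕ → V) (a : V) (β : ZMod 2) (N : ℕ) (v : V) :
    bdy (earL T c a β N) v = (if a = v then β else 0) + (∑ i ∈ range N, if c i = v then T (c i) else 0) +
      (if c N = v then bit T c β N else 0) := by
  induction N with
  | zero =>
    simp only [earL, bit, range_zero, sum_empty, add_zero]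
    rcases z2 β with h | h
    · simp [h, bdy]
    · simp [h, bdy]
  | succ N ih =>
    simp only [earL]
    rw [bdy_append, ih, Finset.sum_range_succ]
    have hb : bit T c β (N + 1) = bit T c β N + T (c N) := rfl
    rcases z2 (bit T c β (N + 1)) with h | h
    · rw [h, if_neg (show ¬ ((0 : ZMod 2) = 1) by decide), bdy_nil]
      rw [hb] at h
      have h2 : bit T c β N = T (c N) :=
        (by decide : ∀ x y : ZMod 2, x + y = 0 → x = y) _ _ h
      rw [h2]
      simp only [ite_self, add_zero]
      ring
    · rw [h, if_pos rfl, bdy_single]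
      rw [hb] at h
      have h2 : bit T c β N = 1 + T (c N) :=
        (by decide : ∀ x y : ZMod 2, x + y = 1 → x = 1 + y) _ _ h
      rw [h2]
      simp only
      have h3 : ∀ x : ZMod 2, x + x = 0 := by decide
      by_cases h4 : c N = v
      · simp only [h4, if_true]
        have h5 := h3 1
        have : (1 : ZMod 2) + T v + 1 = T v := by
          rcases z2 (T v) with h6 | h6 <;> rw [h6] <;> decide
        calc _ = (if a = v then β else 0) + (∑ x ∈ range N, if c x = v then T (c x) else 0) + ((1 : ZMod 2) + T v + 1)
              + (if c (N + 1) = v then (1 : ZMod 2) else 0) := by ring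
          _ = _ := by rw [this]; ring
      · simp only [h4, if_false]
        ring

omit [Fintype V] [DecidableEq V] in
theorem bit_flip (T : V → ZMod 2) (c : ℕ → V) (β : ZMod 2) (i : ℕ) :
    bit T c (β + 1) i = bit T c β i + 1 := by
  induction i with
  | zero => rfl
  | succ i ih =>
    simp only [bit, ih]
    ring

omit [Fintype V] in
theorem len_earL (T : V → ZMod 2) (c : ℕ → V) (a : V) (β : ZMod 2) (N : ℕ) :
    (earL T c a β N).length + (earL T c a (β + 1) N).length = N + 1 := by
  induction N with
  | zero =>
    simp only [earL]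
    rcases z2 β with h | h
    · simp [h]
    · subst h
      have : (1 : ZMod 2) + 1 = 0 := by decide
      simp [this]
  | succ N ih =>
    simp only [earL, List.length_append]
    rw [bit_flip]
    rcases z2 (bit T c β (N + 1)) with h | h
    · rw [h]
      simp only [zero_add, if_true, List.length_cons, List.length_nil]
      rw [if_neg (by decide)]
      simp only [List.length_nil]
      omega
    · rw [h]
      have : (1 : ZMod 2) + 1 = 0 := by decide
      rw [this, if_neg (show ¬ ((0 : ZMod 2) = 1) by decide)]
      simp only [if_true, List.length_cons, List.length_nil]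
      omega

omit [Fintype V] in
theorem inG_earL {G : Finset (Sym2 V)} (T : V → ZMod 2) (c : ℕ → V) (a : V) (β : ZMod 2) (N : ℕ)
    (h0 : s(a, c 0) ∈ G) (h : ∀ i < N, s(c i, c (i + 1)) ∈ G) : InG G (earL T c a β N) := by
  induction N with
  | zero =>
    simp only [earL]
    split_ifs
    · intro e he
      rw [List.mem_singleton] at he
      subst he
      exact h0
    · intro e he
      simp at he
  | succ N ih =>
    simp only [earL]
    refine (ih (fun i hi => h i (by omega))).append ?_
    split_ifs
    · intro e he
      rw [List.mem_singleton] at he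
      subst he
      exact h N (by omega)
    · intro e he
      simp at he

/-- Every even set `T` of vertices of `H` is the set of the odd degree vertices of a list of edges of `G` of length at
most `(|H| - δ) / 2`. -/
def TJ (G : Finset (Sym2 V)) (δ : ℕ) (H : Finset V) : Prop :=
  ∀ T : V → ZMod 2, (∀ v, v ∉ H → T v = 0) → ∑ v, T v = 0 →
    ∃ L : List (V × V), InG G L ∧ (∀ v, bdy L v = T v) ∧ 2 * L.length + δ ≤ H.card

/-- Adding an odd ear. -/
theorem TJ.ear {G : Finset (Sym2 V)} {δ : ℕ} {H : Finset V} (h : TJ G δ H) {a : V} {c : ℕ → V} {N : ℕ}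
    (ha : a ∈ H) (hN : Even N) (hcN : c N ∈ H) (hc : ∀ i < N, c i ∉ H) (hinj : ∀ i < N, ∀ j < N, c i = c j → i = j)
    (h0 : s(a, c 0) ∈ G) (he : ∀ i < N, s(c i, c (i + 1)) ∈ G) :
    TJ G δ (H ∪ (range N).image c) := by
  intro T hT hs
  have hcard : (H ∪ (range N).image c).card = H.card + N := by
    rw [Finset.card_union_of_disjoint, Finset.card_image_of_injOn, Finset.card_range]
    · intro i hi j hj hij
      exact hinj i (by simpa using hi) j (by simpa using hj) hij
    · rw [Finset.disjoint_left]
      intro x hx hx'
      obtain ⟨i, hi, rfl⟩ := Finset.mem_image.1 hx'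
      exact hc i (by simpa using hi) hx
  -- the choice of the class
  obtain ⟨β, hβ⟩ : ∃ β : ZMod 2, 2 * (earL T c a β N).length ≤ N := by
    have h1 := len_earL T c a 0 N
    obtain ⟨k, hk⟩ := hN
    by_cases h2 : 2 * (earL T c a 0 N).length ≤ N
    · exact ⟨0, h2⟩
    · exact ⟨0 + 1, by omega⟩
  set E := earL T c a β N with hE
  have h2 : ∀ x : ZMod 2, x + x = 0 := by decide
  obtain ⟨L, hL, hb, hl⟩ := h (fun v => T v + bdy E v) (by
    intro v hv
    rw [hE, bdy_earL]
    have h3 : a ≠ v := by rintro rfl; exact hv ha
    have h4 : c N ≠ v := by rintro rfl; exact hv hcN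
    rw [if_neg h3, if_neg h4, zero_add, add_zero]
    by_cases h5 : v ∈ (range N).image c
    · obtain ⟨i, hi, rfl⟩ := Finset.mem_image.1 h5
      rw [Finset.sum_eq_single_of_mem i hi]
      · rw [if_pos rfl]
        exact h2 _
      · intro j hj hji
        rw [if_neg]
        intro h6
        exact hji (hinj j (by simpa using hj) i (by simpa using hi) h6)
    · rw [Finset.sum_eq_zero, add_zero]
      · apply hT
        rw [Finset.mem_union]
        tauto
      · intro i hi
        rw [if_neg]
        rintro rfl
        exact h5 (Finset.mem_image_of_mem _ hi)) (by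
    rw [Finset.sum_add_distrib, hs, sum_bdy, add_zero])
  refine ⟨L ++ E, hL.append (inG_earL T c a β N h0 he), ?_, ?_⟩
  · intro v
    rw [bdy_append, hb, add_assoc, h2, add_zero]
  · rw [hcard, List.length_append]
    omega

/-! ## The alternating path -/

/-- The alternating sequence from `v`. -/
def alt (M M' : V → V) (v : V) : ℕ → V
  | 0 => v
  | i + 1 => if Even i then M (alt M M' v i) else M' (alt M M' v i)

omit [Fintype V] [DecidableEq V] in
theorem alt_even {M M' : V → V} {v : V} {i : ℕ} (h : Even i) : alt M M' v (i + 1) = M (alt M M' v i) := by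
  simp [alt, h]

omit [Fintype V] [DecidableEq V] in
theorem alt_odd {M M' : V → V} {v : V} {i : ℕ} (h : ¬ Even i) : alt M M' v (i + 1) = M' (alt M M' v i) := by
  simp [alt, h]

omit [Fintype V] in
theorem alt_inj {H : Finset V} {M M' : V → V} {v : V} (hM : ∀ w, M (M w) = w) (hM' : ∀ w, M' (M' w) = w)
    (hf : ∀ w, w ∉ H → M w ≠ w) (hf' : ∀ w, w ∉ H → w ≠ v → M' w ≠ w) (hv : M' v = v ∨ M' v ∈ H) :
    ∀ i, (∀ j ≤ i, alt M M' v j ∉ H) → ∀ j < i, alt M M' v j ≠ alt M M' v i := by
  intro i
  induction i using Nat.strong_induction_on with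
  | _ i ih =>
    intro hH j hj hij
    obtain ⟨i, rfl⟩ : ∃ k, i = k + 1 := ⟨i - 1, by omega⟩
    -- distinctness below
    have hd : ∀ p q, p < q → q ≤ i → alt M M' v p ≠ alt M M' v q := by
      intro p q hpq hq
      exact ih q (by omega) (fun r hr => hH r (by omega)) p hpq
    by_cases hi : Even i
    · rw [alt_even hi] at hij
      have h1 : M (alt M M' v j) = alt M M' v i := by rw [hij, hM]
      by_cases hje : Even j
      · rw [← alt_even (M := M) (M' := M') (v := v) hje] at h1
        rcases Nat.lt_or_ge j i with h2 | h2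
        · have h3 : j + 1 ≠ i := by
            rintro rfl
            exact (Nat.even_add_one.1 hi) hje
          exact hd (j + 1) i (by omega) le_rfl h1
        · have h3 : j = i := by omega
          subst h3
          exact hf _ (hH j (by omega)) (hij.symm)
      · obtain ⟨k, rfl⟩ : ∃ k, j = k + 1 := ⟨j - 1, by
          have : j ≠ 0 := by rintro rfl; exact hje (by decide)
          omega⟩
        have hk : Even k := by
          by_contra h
          exact hje (Nat.even_add_one.2 h)
        rw [alt_even hk, hM] at h1
        exact hd k i (by omega) le_rfl h1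
    · rw [alt_odd hi] at hij
      have h1 : M' (alt M M' v j) = alt M M' v i := by rw [hij, hM']
      have hi0 : 0 < i := by
        rcases Nat.eq_zero_or_pos i with h | h
        · subst h; exact absurd (by decide : Even 0) hi
        · exact h
      by_cases hje : Even j
      · rcases Nat.eq_zero_or_pos j with h0 | h0
        · subst h0
          have h2 : M' v = alt M M' v i := h1
          rcases hv with h3 | h3
          · rw [h3] at h2
            exact hd 0 i hi0 le_rfl h2
          · rw [h2] at h3
            exact hH i (by omega) h3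
        · obtain ⟨k, rfl⟩ : ∃ k, j = k + 1 := ⟨j - 1, by omega⟩
          have hk : ¬ Even k := Nat.even_add_one.1 hje
          rw [alt_odd hk, hM'] at h1
          exact hd k i (by omega) le_rfl h1
      · rw [← alt_odd (M := M) (M' := M') (v := v) hje] at h1
        rcases Nat.lt_or_ge j i with h2 | h2
        · have h3 : j + 1 ≠ i := by
            rintro rfl
            exact hi (Nat.even_add_one.2 hje)
          exact hd (j + 1) i (by omega) le_rfl h1
        · have h3 : j = i := by omega
          subst h3
          refine hf' _ (hH j (by omega)) ?_ (hij.symm)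
          intro h4
          exact hd 0 j hi0 le_rfl h4.symm

/-- One more ear: if `H` (closed under `M`) is not everything, `a ∈ H`, `v ∉ H`, then the alternating path from `v`
comes back to `H`. -/
theorem grow {G : Finset (Sym2 V)} {δ : ℕ} {H : Finset V} (h : TJ G δ H) {M M' : V → V} {a v : V}
    (hM : ∀ w, M (M w) = w) (hM' : ∀ w, M' (M' w) = w) (hcl : ∀ w ∈ H, M w ∈ H)
    (hf : ∀ w, w ∉ H → M w ≠ w ∧ s(w, M w) ∈ G) (hf' : ∀ w, w ∉ H → w ≠ v → M' w ≠ w ∧ s(w, M' w) ∈ G)
    (hv' : M' v = v ∨ M' v ∈ H) (ha : a ∈ H) (hv : v ∉ H) (hav : s(a, v) ∈ G) :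
    ∃ H' : Finset V, TJ G δ H' ∧ H ⊂ H' ∧ ∀ w ∈ H', M w ∈ H' := by
  classical
  set c := alt M M' v with hc
  have hinj := alt_inj (v := v) hM hM' (fun w hw => (hf w hw).1) (fun w hw hw' => (hf' w hw hw').1) hv'
  have hex : ∃ N, c N ∈ H := by
    by_contra hno
    push Not at hno
    have : Function.Injective c := by
      intro i j hij
      rcases lt_trichotomy i j with h1 | h1 | h1
      · exact absurd hij (hinj j (fun k _ => hno k) i h1)
      · exact h1
      · exact absurd hij.symm (hinj i (fun k _ => hno k) j h1)
    exact not_injective_infinite_finite c this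
  set N := Nat.find hex with hNdef
  have hN : c N ∈ H := Nat.find_spec hex
  have hlt : ∀ i < N, c i ∉ H := fun i hi => Nat.find_min hex hi
  have hN0 : 0 < N := by
    rcases Nat.eq_zero_or_pos N with h1 | h1
    · rw [h1] at hN
      exact absurd hN hv
    · exact h1
  have hNe : Even N := by
    by_contra hodd
    obtain ⟨k, hk⟩ : ∃ k, N = k + 1 := ⟨N - 1, by omega⟩
    have hke : Even k := by
      by_contra h1
      exact hodd (hk ▸ (Nat.even_add_one.2 h1))
    have h2 : c N = M (c k) := by rw [hk]; exact alt_even hke
    have h3 := hcl _ hN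
    rw [h2, hM] at h3
    exact hlt k (by omega) h3
  have hdis : ∀ i < N, ∀ j < N, c i = c j → i = j := by
    intro i hi j hj hij
    rcases lt_trichotomy i j with h1 | h1 | h1
    · exact absurd hij (hinj j (fun k hk => hlt k (by omega)) i h1)
    · exact h1
    · exact absurd hij.symm (hinj i (fun k hk => hlt k (by omega)) j h1)
  have hedge : ∀ i < N, s(c i, c (i + 1)) ∈ G := by
    intro i hi
    by_cases hie : Even i
    · have h1 : c (i + 1) = M (c i) := alt_even hie
      rw [h1]
      exact (hf _ (hlt i hi)).2
    · have h1 : c (i + 1) = M' (c i) := alt_odd hie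
      rw [h1]
      refine (hf' _ (hlt i hi) ?_).2
      intro h2
      have h3 := hdis i hi 0 hN0 h2
      subst h3
      exact hie (by decide)
  refine ⟨H ∪ (range N).image c, h.ear ha hNe hN hlt hdis hav hedge, ?_, ?_⟩
  · rw [Finset.ssubset_iff_of_subset Finset.subset_union_left]
    exact ⟨v, Finset.mem_union_right _ (Finset.mem_image.2 ⟨0, by simpa using hN0, rfl⟩), hv⟩
  · intro w hw
    rcases Finset.mem_union.1 hw with h1 | h1
    · exact Finset.mem_union_left _ (hcl w h1)
    · obtain ⟨i, hi, rfl⟩ := Finset.mem_image.1 h1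
      rw [Finset.mem_range] at hi
      apply Finset.mem_union_right
      by_cases hie : Even i
      · have h2 : c (i + 1) = M (c i) := alt_even hie
        rw [← h2]
        refine Finset.mem_image.2 ⟨i + 1, ?_, rfl⟩
        rw [Finset.mem_range]
        have : i + 1 ≠ N := by
          intro h3
          rw [← h3] at hNe
          exact (Nat.even_add_one.1 hNe) hie
        omega
      · obtain ⟨k, rfl⟩ : ∃ k, i = k + 1 := ⟨i - 1, by
          have : i ≠ 0 := by rintro rfl; exact hie (by decide)
          omega⟩
        have hk : Even k := by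
          by_contra h3
          exact hie (Nat.even_add_one.2 h3)
        have h2 : c (k + 1) = M (c k) := alt_even hk
        rw [h2, hM]
        exact Finset.mem_image.2 ⟨k, by rw [Finset.mem_range]; omega, rfl⟩

/-- If every closed proper vertex set can be enlarged, then `TJ` holds for all vertices. -/
theorem TJ.all {G : Finset (Sym2 V)} {δ : ℕ} {H : Finset V} (h : TJ G δ H) {M : V → V}
    (hM : ∀ w, M (M w) = w) (hcl : ∀ w ∈ H, M w ∈ H)
    (hf : ∀ w, w ∉ H → M w ≠ w ∧ s(w, M w) ∈ G)
    (hg : ∀ H' : Finset V, H'.Nonempty → H' ≠ univ → ∃ a ∈ H', ∃ v, v ∉ H' ∧ s(a, v) ∈ G ∧ ∃ M' : V → V,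
      (∀ w, M' (M' w) = w) ∧ (∀ w, w ≠ v → w ∉ H' → M' w ≠ w ∧ s(w, M' w) ∈ G) ∧ (M' v = v ∨ M' v ∈ H'))
    (hne : H.Nonempty) : TJ G δ univ := by
  classical
  obtain ⟨k, hk⟩ : ∃ k, k = (univ \ H).card := ⟨_, rfl⟩
  induction k using Nat.strong_induction_on generalizing H with
  | _ k ih =>
    by_cases hu : H = univ
    · rw [← hu]; exact h
    · obtain ⟨a, ha, v, hv, hav, M', hM', hf', hv'⟩ := hg H hne hu
      obtain ⟨H', hH', hss, hcl'⟩ := grow h hM hM' hcl hf (fun w hw hw' => hf' w hw' hw) hv' ha hv hav
      refine ih (univ \ H').card ?_ hH' hcl' ?_ (hne.mono hss.1) rfl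
      · rw [hk]
        apply Finset.card_lt_card
        rw [Finset.ssubset_iff_of_subset (Finset.sdiff_subset_sdiff le_rfl hss.1)]
        obtain ⟨x, hx, hx'⟩ := Finset.exists_of_ssubset hss
        exact ⟨x, Finset.mem_sdiff.2 ⟨Finset.mem_univ _, hx'⟩, fun h => (Finset.mem_sdiff.1 h).2 hx⟩
      · intro w hw
        exact hf w (fun h => hw (hss.1 h))

/-- Start with one vertex. -/
theorem TJ.one (G : Finset (Sym2 V)) (r : V) : TJ G 1 {r} := by
  intro T hT hs
  have h1 : T r = 0 := by
    rw [Finset.sum_eq_single_of_mem r (Finset.mem_univ _)] at hs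
    · exact hs
    · intro v _ hv
      exact hT v (by simpa using hv)
  refine ⟨[], by intro e he; simp at he, ?_, by simp⟩
  intro v
  rw [bdy_nil]
  by_cases hv : v = r
  · rw [hv, h1]
  · rw [hT v (by simpa using hv)]

/-- Start with one edge. -/
theorem TJ.two {G : Finset (Sym2 V)} {u w : V} (huw : u ≠ w) (he : s(u, w) ∈ G) : TJ G 0 {u, w} := by
  intro T hT hs
  have h0 : ∑ v, T v = T u + T w := by
    rw [← Finset.sum_subset (Finset.subset_univ ({u, w} : Finset V)) (fun v _ hv => hT v hv),
      Finset.sum_pair huw]
  rw [h0] at hs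
  have h1 : T u = T w := (by decide : ∀ x y : ZMod 2, x + y = 0 → x = y) _ _ hs
  rcases z2 (T u) with h2 | h2
  · refine ⟨[], by intro e he; simp at he, ?_, by simp⟩
    intro v
    rw [bdy_nil]
    by_cases hv : v = u
    · rw [hv, h2]
    · by_cases hv' : v = w
      · rw [hv', ← h1, h2]
      · rw [hT v (by simp [hv, hv'])]
  · refine ⟨[(u, w)], by intro e he'; rw [List.mem_singleton] at he'; subst he'; exact he, ?_, ?_⟩
    · intro v
      rw [bdy_single]
      by_cases hv : v = u
      · subst hv
        simp [h2, huw.symm]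
      · by_cases hv' : v = w
        · subst hv'
          rw [← h1, h2]
          simp [huw]
        · rw [hT v (by simp [hv, hv']), if_neg (fun h => hv h.symm), if_neg (fun h => hv' h.symm), add_zero]
    · rw [Finset.card_pair huw]
      simp

end H44Z
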