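import Pool.Agent.Lib.H44Z.E1

/-!
# H44Z, file E2: from a connected even list of edges to a closed walk
-/

set_option autoImplicit false

namespace H44Z

open Finset

variable {V : Type*} [Fintype V] [DecidableEq V]

omit [Fintype V] in
theorem bdy_remove {L1 L2 : List (V × V)} {e : V × V} {f : V → ZMod 2}
    (h : ∀ v, bdy (L1 ++ e :: L2) v = f v) (v : V) :
    bdy (L1 ++ L2) v = f v + ((if e.1 = v then (1 : ZMod 2) else 0) + (if e.2 = v then (1 : ZMod 2) else 0)) := by
  have h1 := h v
  rw [bdy_append, bdy_cons] at h1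
  rw [bdy_append, ← h1]
  have h2 : ∀ x : ZMod 2, x + x = 0 := by decide
  set t := ((if e.1 = v then (1 : ZMod 2) else 0) + (if e.2 = v then (1 : ZMod 2) else 0)) with ht
  calc bdy L1 v + bdy L2 v = bdy L1 v + bdy L2 v + (t + t) := by rw [h2, add_zero]
    _ = _ := by ring

omit [Fintype V] [DecidableEq V] in
theorem InG.remove {G : Finset (Sym2 V)} {L1 L2 : List (V × V)} {e : V × V}
    (h : InG G (L1 ++ e :: L2)) : InG G (L1 ++ L2) := by
  intro x hx
  apply h
  rw [List.mem_append] at hx ⊢
  rcases hx with hx | hx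
  · exact Or.inl hx
  · exact Or.inr (List.mem_cons_of_mem _ hx)

omit [Fintype V] in
/-- If the odd degree vertices are `u` and `w` (or `u = w` and there are none), then some of the edges form a walk from
`u` to `w`, the degrees of the rest are even. -/
theorem walk_aux {G : Finset (Sym2 V)} (hl : ∀ v, s(v, v) ∉ G) : ∀ (n : ℕ) (L : List (V × V)), L.length = n →
    InG G L → ∀ u w : V, (∀ v, bdy L v = (if u = v then (1 : ZMod 2) else 0) + (if w = v then (1 : ZMod 2) else 0)) →
    ∃ (p : (SimpleGraph.fromEdgeSet (G : Set (Sym2 V))).Walk u w) (R : List (V × V)), (∀ v, bdy R v = 0) ∧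
      p.length + R.length = L.length ∧ (∀ e ∈ R, e ∈ L) ∧
      (∀ e ∈ L, e ∈ R ∨ (e.1 ∈ p.support ∧ e.2 ∈ p.support)) := by
  intro n
  induction n with
  | zero =>
    intro L hL hG u w hb
    have h0 : L = [] := List.length_eq_zero_iff.1 hL
    subst h0
    have h1 : u = w := by
      by_contra hne
      have h2 := hb u
      rw [bdy_nil, if_pos rfl, if_neg (fun h => hne h.symm), add_zero] at h2
      exact absurd h2 (by decide)
    subst h1
    exact ⟨SimpleGraph.Walk.nil, [], fun v => bdy_nil v, by simp, by simp, by simp⟩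
  | succ n ih =>
    intro L hL hG u w hb
    by_cases huw : u = w
    · subst huw
      refine ⟨SimpleGraph.Walk.nil, L, ?_, by simp, fun e he => he, fun e he => Or.inl he⟩
      intro v
      rw [hb]
      exact (by decide : ∀ x : ZMod 2, x + x = 0) _
    · have h1 := hb u
      rw [if_pos rfl, if_neg (fun h => huw h.symm), add_zero] at h1
      obtain ⟨e, he, heu⟩ : ∃ e ∈ L, e.1 = u ∨ e.2 = u := by
        by_contra hno
        push Not at hno
        have h2 : bdy L u = 0 := by
          unfold bdy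
          apply List.sum_eq_zero
          intro x hx
          obtain ⟨e, he, rfl⟩ := List.mem_map.1 hx
          rw [if_neg (hno e he).1, if_neg (hno e he).2, add_zero]
        rw [h2] at h1
        exact absurd h1 (by decide)
      obtain ⟨L1, L2, rfl⟩ := List.append_of_mem he
      obtain ⟨x, hx, hxe⟩ : ∃ x, s(e.1, e.2) = s(u, x) ∧
          (∀ v, (if e.1 = v then (1 : ZMod 2) else 0) + (if e.2 = v then (1 : ZMod 2) else 0) =
            (if u = v then (1 : ZMod 2) else 0) + (if x = v then (1 : ZMod 2) else 0)) := by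
        rcases heu with h2 | h2
        · exact ⟨e.2, by rw [h2], fun v => by rw [h2]⟩
        · exact ⟨e.1, by rw [h2, Sym2.eq_swap], fun v => by rw [h2, add_comm]⟩
      have hxG : s(u, x) ∈ G := hx ▸ hG e he
      have hux : u ≠ x := by
        rintro rfl
        exact hl _ hxG
      have hlen : (L1 ++ L2).length = n := by
        simp only [List.length_append, List.length_cons] at hL ⊢
        omega
      obtain ⟨p, R, hR, hlR, hRL, hLR⟩ := ih (L1 ++ L2) hlen hG.remove x w (by
        intro v
        rw [bdy_remove hb v, hxe]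
        have h2 : ∀ a b c : ZMod 2, a + b + (a + c) = c + b := by decide
        exact h2 _ _ _)
      have hadj : (SimpleGraph.fromEdgeSet (G : Set (Sym2 V))).Adj u x := by
        rw [SimpleGraph.fromEdgeSet_adj]
        exact ⟨Finset.mem_coe.2 hxG, hux⟩
      refine ⟨SimpleGraph.Walk.cons hadj p, R, hR, ?_, ?_, ?_⟩
      · rw [SimpleGraph.Walk.length_cons]
        simp only [List.length_append, List.length_cons] at hlR ⊢
        omega
      · intro y hy
        have := hRL y hy
        rw [List.mem_append] at this ⊢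
        rcases this with h2 | h2
        · exact Or.inl h2
        · exact Or.inr (List.mem_cons_of_mem _ h2)
      · intro y hy
        rw [SimpleGraph.Walk.support_cons]
        rw [List.mem_append, List.mem_cons] at hy
        have hcase : y = e ∨ y ∈ L1 ++ L2 := by
          rw [List.mem_append]
          tauto
        rcases hcase with h2 | h2
        · right
          subst h2
          have hxs : x ∈ p.support := p.start_mem_support
          rcases Sym2.eq_iff.1 hx with ⟨h3, h4⟩ | ⟨h3, h4⟩
          · rw [h3, h4]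
            exact ⟨List.mem_cons_self, List.mem_cons_of_mem _ hxs⟩
          · rw [h3, h4]
            exact ⟨List.mem_cons_of_mem _ hxs, List.mem_cons_self⟩
        · rcases hLR y h2 with h3 | ⟨h3, h4⟩
          · exact Or.inl h3
          · exact Or.inr ⟨List.mem_cons_of_mem _ h3, List.mem_cons_of_mem _ h4⟩

omit [Fintype V] in
/-- A closed walk through a given edge. -/
theorem closed_aux {G : Finset (Sym2 V)} (hl : ∀ v, s(v, v) ∉ G) {R : List (V × V)} (hG : InG G R)
    (hb : ∀ v, bdy R v = 0) {e : V × V} (he : e ∈ R) {u x : V} (hux : (e.1 = u ∧ e.2 = x) ∨ (e.1 = x ∧ e.2 = u)) :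
    ∃ (p : (SimpleGraph.fromEdgeSet (G : Set (Sym2 V))).Walk u u) (R' : List (V × V)), (∀ v, bdy R' v = 0) ∧
      p.length + R'.length = R.length ∧ R'.length < R.length ∧ (∀ e ∈ R', e ∈ R) ∧
      (∀ e ∈ R, e ∈ R' ∨ (e.1 ∈ p.support ∧ e.2 ∈ p.support)) := by
  obtain ⟨L1, L2, rfl⟩ := List.append_of_mem he
  have hxe : ∀ v, (if e.1 = v then (1 : ZMod 2) else 0) + (if e.2 = v then (1 : ZMod 2) else 0) =
      (if x = v then (1 : ZMod 2) else 0) + (if u = v then (1 : ZMod 2) else 0) := by
    intro v
    rcases hux with ⟨h1, h2⟩ | ⟨h1, h2⟩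
    · rw [h1, h2, add_comm]
    · rw [h1, h2]
  have hx : s(e.1, e.2) = s(u, x) := by
    rcases hux with ⟨h1, h2⟩ | ⟨h1, h2⟩
    · rw [h1, h2]
    · rw [h1, h2, Sym2.eq_swap]
  have hxG : s(u, x) ∈ G := hx ▸ hG e he
  have hne : u ≠ x := by
    rintro rfl
    exact hl _ hxG
  obtain ⟨p, R', hR', hlR, hRL, hLR⟩ := walk_aux hl _ (L1 ++ L2) rfl hG.remove x u (by
    intro v
    rw [bdy_remove hb v, hxe, zero_add])
  have hadj : (SimpleGraph.fromEdgeSet (G : Set (Sym2 V))).Adj u x := by
    rw [SimpleGraph.fromEdgeSet_adj]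
    exact ⟨Finset.mem_coe.2 hxG, hne⟩
  refine ⟨SimpleGraph.Walk.cons hadj p, R', hR', ?_, ?_, ?_, ?_⟩
  · rw [SimpleGraph.Walk.length_cons]
    simp only [List.length_append, List.length_cons] at hlR ⊢
    omega
  · simp only [List.length_append, List.length_cons] at hlR ⊢
    omega
  · intro y hy
    have := hRL y hy
    rw [List.mem_append] at this ⊢
    rcases this with h2 | h2
    · exact Or.inl h2
    · exact Or.inr (List.mem_cons_of_mem _ h2)
  · intro y hy
    rw [SimpleGraph.Walk.support_cons]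
    rw [List.mem_append, List.mem_cons] at hy
    have hcase : y = e ∨ y ∈ L1 ++ L2 := by
      rw [List.mem_append]
      tauto
    rcases hcase with h2 | h2
    · right
      subst h2
      have hxs : x ∈ p.support := p.start_mem_support
      rcases Sym2.eq_iff.1 hx with ⟨h3, h4⟩ | ⟨h3, h4⟩
      · rw [h3, h4]
        exact ⟨List.mem_cons_self, List.mem_cons_of_mem _ hxs⟩
      · rw [h3, h4]
        exact ⟨List.mem_cons_of_mem _ hxs, List.mem_cons_self⟩
    · rcases hLR y h2 with h3 | ⟨h3, h4⟩
      · exact Or.inl h3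
      · exact Or.inr ⟨List.mem_cons_of_mem _ h3, List.mem_cons_of_mem _ h4⟩

/-- The Euler walk. -/
theorem euler {G : Finset (Sym2 V)} (hl : ∀ v, s(v, v) ∉ G) (v0 : V) : ∀ (n : ℕ) (R : List (V × V)),
    R.length = n → InG G R → (∀ v, bdy R v = 0) →
    ∀ W : (SimpleGraph.fromEdgeSet (G : Set (Sym2 V))).Walk v0 v0,
    (∀ S : Finset V, (∀ w ∈ W.support, w ∈ S) → S ≠ univ →
      ∃ e ∈ R, (e.1 ∈ S ∧ e.2 ∉ S) ∨ (e.2 ∈ S ∧ e.1 ∉ S)) →
    ∃ p : (SimpleGraph.fromEdgeSet (G : Set (Sym2 V))).Walk v0 v0, (∀ w, w ∈ p.support) ∧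
      p.length ≤ W.length + R.length := by
  intro n
  induction n using Nat.strong_induction_on with
  | _ n ih =>
    intro R hRn hG hb W hcon
    by_cases hu : W.support.toFinset = univ
    · refine ⟨W, ?_, by omega⟩
      intro w
      have : w ∈ W.support.toFinset := hu ▸ Finset.mem_univ w
      exact List.mem_toFinset.1 this
    · obtain ⟨e, he, hcr⟩ := hcon W.support.toFinset (fun w hw => List.mem_toFinset.2 hw) hu
      obtain ⟨u, x, hux, huS⟩ : ∃ u x, ((e.1 = u ∧ e.2 = x) ∨ (e.1 = x ∧ e.2 = u)) ∧ u ∈ W.support := by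
        rcases hcr with ⟨h1, h2⟩ | ⟨h1, h2⟩
        · exact ⟨e.1, e.2, Or.inl ⟨rfl, rfl⟩, List.mem_toFinset.1 h1⟩
        · exact ⟨e.2, e.1, Or.inr ⟨rfl, rfl⟩, List.mem_toFinset.1 h1⟩
      obtain ⟨p, R', hR', hlen, hlt, hRR, hRS⟩ := closed_aux hl hG hb he hux
      set W' := (W.takeUntil u huS).append (p.append (W.dropUntil u huS)) with hW'
      have hlW : W'.length = W.length + p.length := by
        have h1 := congrArg SimpleGraph.Walk.length (W.take_spec huS)
        rw [SimpleGraph.Walk.length_append] at h1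
        rw [hW', SimpleGraph.Walk.length_append, SimpleGraph.Walk.length_append]
        omega
      have hsup1 : ∀ w ∈ W.support, w ∈ W'.support := by
        intro w hw
        rw [← W.take_spec huS, SimpleGraph.Walk.mem_support_append_iff] at hw
        rw [hW', SimpleGraph.Walk.mem_support_append_iff, SimpleGraph.Walk.mem_support_append_iff]
        tauto
      have hsup2 : ∀ w ∈ p.support, w ∈ W'.support := by
        intro w hw
        rw [hW', SimpleGraph.Walk.mem_support_append_iff, SimpleGraph.Walk.mem_support_append_iff]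
        tauto
      obtain ⟨q, hq, hql⟩ := ih R'.length (by omega) R' rfl (fun e he => hG e (hRR e he)) hR' W' (by
        intro S hS hSu
        obtain ⟨f, hf, hfS⟩ := hcon S (fun w hw => hS w (hsup1 w hw)) hSu
        rcases hRS f hf with h1 | ⟨h1, h2⟩
        · exact ⟨f, h1, hfS⟩
        · exfalso
          have h3 := hS _ (hsup2 _ h1)
          have h4 := hS _ (hsup2 _ h2)
          tauto)
      exact ⟨q, hq, by omega⟩

/-- The edges of a spanning tree. -/
theorem span_aux {G : Finset (Sym2 V)}
    (hcon : ∀ S : Finset V, S.Nonempty → S ≠ univ → ∃ a ∈ S, ∃ b, b ∉ S ∧ s(a, b) ∈ G) (v0 : V) :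
    ∃ L : List (V × V), InG G L ∧ L.length + 1 = Fintype.card V ∧
      ∀ S : Finset V, v0 ∈ S → S ≠ univ → ∃ e ∈ L, (e.1 ∈ S ∧ e.2 ∉ S) ∨ (e.2 ∈ S ∧ e.1 ∉ S) := by
  have key : ∀ n (H : Finset V), (univ \ H).card = n → v0 ∈ H → ∀ L : List (V × V), InG G L → L.length + 1 = H.card →
      (∀ S : Finset V, (∃ x ∈ H, x ∈ S) → (∃ x ∈ H, x ∉ S) → ∃ e ∈ L, (e.1 ∈ S ∧ e.2 ∉ S) ∨ (e.2 ∈ S ∧ e.1 ∉ S)) →
      ∃ L : List (V × V), InG G L ∧ L.length + 1 = Fintype.card V ∧
      ∀ S : Finset V, v0 ∈ S → S ≠ univ → ∃ e ∈ L, (e.1 ∈ S ∧ e.2 ∉ S) ∨ (e.2 ∈ S ∧ e.1 ∉ S) := by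
    intro n
    induction n with
    | zero =>
      intro H hH h0 L hG hL hS
      have hu : H = univ := by
        rw [Finset.card_eq_zero, Finset.sdiff_eq_empty_iff_subset] at hH
        exact Finset.univ_subset_iff.1 hH
      subst hu
      refine ⟨L, hG, by rw [hL, Finset.card_univ], ?_⟩
      intro S hv hSu
      apply hS S ⟨v0, Finset.mem_univ _, hv⟩
      by_contra hno
      push Not at hno
      exact hSu (Finset.univ_subset_iff.1 (fun x hx => hno x hx))
    | succ n ih =>
      intro H hH h0 L hG hL hS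
      have hu : H ≠ univ := by
        rintro rfl
        simp at hH
      obtain ⟨a, ha, b, hb, hab⟩ := hcon H ⟨v0, h0⟩ hu
      refine ih (insert b H) ?_ (Finset.mem_insert_of_mem h0) ((a, b) :: L) ?_ ?_ ?_
      · have h1 : univ \ insert b H = (univ \ H).erase b := by
          ext x
          simp only [Finset.mem_sdiff, Finset.mem_univ, true_and, Finset.mem_insert, Finset.mem_erase]
          tauto
        rw [h1, Finset.card_erase_of_mem (by simpa using hb)]
        omega
      · intro e he
        rcases List.mem_cons.1 he with h1 | h1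
        · subst h1
          exact hab
        · exact hG e h1
      · rw [Finset.card_insert_of_notMem hb, List.length_cons]
        omega
      · rintro S ⟨x, hx, hxS⟩ ⟨z, hz, hzS⟩
        by_cases h1 : ∃ x ∈ H, x ∈ S
        · by_cases h2 : ∃ x ∈ H, x ∉ S
          · obtain ⟨e, he, h3⟩ := hS S h1 h2
            exact ⟨e, List.mem_cons_of_mem _ he, h3⟩
          · push Not at h2
            have hb' : b ∉ S := by
              rcases Finset.mem_insert.1 hz with h3 | h3
              · rw [← h3]; exact hzS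
              · exact absurd (h2 z h3) hzS
            exact ⟨(a, b), List.mem_cons_self, Or.inl ⟨h2 a ha, hb'⟩⟩
        · push Not at h1
          have hb' : b ∈ S := by
            rcases Finset.mem_insert.1 hx with h3 | h3
            · rw [← h3]; exact hxS
            · exact absurd hxS (h1 x h3)
          exact ⟨(a, b), List.mem_cons_self, Or.inr ⟨hb', h1 a ha⟩⟩
  refine key _ {v0} rfl (Finset.mem_singleton_self _) [] (by intro e he; simp at he) (by simp) ?_
  rintro S ⟨x, hx, hxS⟩ ⟨z, hz, hzS⟩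
  rw [Finset.mem_singleton] at hx hz
  rw [hx] at hxS
  rw [hz] at hzS
  exact absurd hxS hzS

/-- A closed walk through all vertices. -/
theorem walk_of_TJ {G : Finset (Sym2 V)} {δ : ℕ} (hl : ∀ v, s(v, v) ∉ G)
    (hcon : ∀ S : Finset V, S.Nonempty → S ≠ univ → ∃ a ∈ S, ∃ b, b ∉ S ∧ s(a, b) ∈ G) (h : TJ G δ univ) (v0 : V) :
    ∃ p : (SimpleGraph.fromEdgeSet (G : Set (Sym2 V))).Walk v0 v0, (∀ w, w ∈ p.support) ∧
      2 * p.length + 2 + δ ≤ 3 * Fintype.card V := by
  obtain ⟨L, hL, hlen, hS⟩ := span_aux hcon v0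
  obtain ⟨J, hJ, hJb, hJl⟩ := h (bdy L) (fun v hv => absurd (Finset.mem_univ v) hv) (sum_bdy L)
  obtain ⟨p, hp, hpl⟩ := euler hl v0 _ (L ++ J) rfl (hL.append hJ) (by
    intro v
    rw [bdy_append, hJb]
    exact (by decide : ∀ x : ZMod 2, x + x = 0) _) SimpleGraph.Walk.nil (by
    intro S hw hSu
    obtain ⟨e, he, h1⟩ := hS S (hw v0 (by simp)) hSu
    exact ⟨e, List.mem_append_left _ he, h1⟩)
  refine ⟨p, hp, ?_⟩
  rw [SimpleGraph.Walk.length_nil, List.length_append] at hpl
  rw [Finset.card_univ] at hJl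
  omega

end H44Z
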