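import Mathlib

/-!
# H44Z, file M1: Tutte's theorem in terms of a family of disjoint odd sets
-/

set_option autoImplicit false

namespace H44Z

open Finset

/-- If a graph with an even number of vertices has no perfect matching, then there are a set `u` and a family of
pairwise disjoint odd sets, disjoint from `u` and with all other neighbours in `u`, with at least `|u| + 2` members. -/
theorem tutte_family {N : Type*} [Fintype N] [DecidableEq N] (H : SimpleGraph N) (hev : Even (Fintype.card N))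
    (hno : ¬ ∃ M : H.Subgraph, M.IsPerfectMatching) :
    ∃ (u : Finset N) (K : Finset (Finset N)), (∀ C ∈ K, Odd C.card) ∧
      (∀ C ∈ K, ∀ C' ∈ K, ∀ x, x ∈ C → x ∈ C' → C = C') ∧ (∀ C ∈ K, ∀ x ∈ C, x ∉ u) ∧
      (∀ C ∈ K, ∀ x ∈ C, ∀ z, H.Adj x z → z ∉ u → z ∈ C) ∧ u.card + 2 ≤ K.card := by
  classical
  rw [SimpleGraph.tutte] at hno
  push Not at hno
  obtain ⟨U, hU⟩ := hno
  unfold SimpleGraph.IsTutteViolator at hU
  set Q := ((⊤ : H.Subgraph).deleteVerts U) with hQ
  have hmem : ∀ v : N, v ∈ Q.verts ↔ v ∉ U := by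
    intro v
    simp [hQ]
  have hQadj : ∀ a b : N, Q.Adj a b ↔ (a ∉ U ∧ b ∉ U ∧ H.Adj a b) := by
    intro a b
    rw [hQ, SimpleGraph.Subgraph.deleteVerts_adj]
    simp
  have hadj : ∀ a b : Q.verts, Q.coe.Adj a b ↔ H.Adj a b := by
    intro a b
    rw [SimpleGraph.Subgraph.coe_adj, hQadj]
    have ha := (hmem _).1 a.2
    have hb := (hmem _).1 b.2
    simp [ha, hb]
  let S : Q.coe.ConnectedComponent → Finset N := fun c => (c.supp.toFinset).image Subtype.val
  have hS : ∀ (c : Q.coe.ConnectedComponent) (x : N), x ∈ S c ↔ ∃ h : x ∈ Q.verts,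
      Q.coe.connectedComponentMk ⟨x, h⟩ = c := by
    intro c x
    simp only [S, Finset.mem_image, Set.mem_toFinset, SimpleGraph.ConnectedComponent.mem_supp_iff]
    constructor
    · rintro ⟨w, hw, rfl⟩
      exact ⟨w.2, hw⟩
    · rintro ⟨h, hx⟩
      exact ⟨⟨x, h⟩, hx, rfl⟩
  have hScard : ∀ c, (S c).card = c.supp.ncard := by
    intro c
    simp only [S]
    rw [Finset.card_image_of_injective _ Subtype.val_injective, Set.ncard_eq_toFinset_card']
  have hfin : Finite Q.coe.ConnectedComponent := inferInstance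
  let O : Finset (Q.coe.ConnectedComponent) := (Set.toFinite Q.coe.oddComponents).toFinset
  have hO : ∀ c, c ∈ O ↔ Odd c.supp.ncard := by
    intro c
    simp only [O, Set.Finite.mem_toFinset]
    rfl
  have hOcard : O.card = Q.coe.oddComponents.ncard := by
    simp only [O]
    rw [Set.ncard_eq_toFinset_card]
  have hinj : Set.InjOn S (O : Set Q.coe.ConnectedComponent) := by
    intro c hc c' _ hcc
    have h1 : Odd (S c).card := by
      rw [hScard]
      exact (hO c).1 (Finset.mem_coe.1 hc)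
    have h2 : (S c).Nonempty := by
      rw [← Finset.card_pos]
      exact h1.pos
    obtain ⟨x, hx⟩ := h2
    obtain ⟨h3, h4⟩ := (hS c x).1 hx
    rw [hcc] at hx
    obtain ⟨h5, h6⟩ := (hS c' x).1 hx
    rw [← h4, ← h6]
  refine ⟨U.toFinset, O.image S, ?_, ?_, ?_, ?_, ?_⟩
  · intro C hC
    obtain ⟨c, hc, rfl⟩ := Finset.mem_image.1 hC
    rw [hScard]
    exact (hO c).1 hc
  · intro C hC C' hC' x hx hx'
    obtain ⟨c, hc, rfl⟩ := Finset.mem_image.1 hC
    obtain ⟨c', hc', rfl⟩ := Finset.mem_image.1 hC'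
    obtain ⟨h3, h4⟩ := (hS c x).1 hx
    obtain ⟨h5, h6⟩ := (hS c' x).1 hx'
    rw [← h4, ← h6]
  · intro C hC x hx
    obtain ⟨c, hc, rfl⟩ := Finset.mem_image.1 hC
    obtain ⟨h3, h4⟩ := (hS c x).1 hx
    rw [Set.mem_toFinset]
    exact (hmem x).1 h3
  · intro C hC x hx z hxz hz
    obtain ⟨c, hc, rfl⟩ := Finset.mem_image.1 hC
    obtain ⟨h3, h4⟩ := (hS c x).1 hx
    rw [Set.mem_toFinset] at hz
    have hz' : z ∈ Q.verts := (hmem z).2 hz
    refine (hS c z).2 ⟨hz', ?_⟩
    rw [← h4]
    apply SimpleGraph.ConnectedComponent.sound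
    apply SimpleGraph.Adj.reachable
    rw [hadj]
    exact hxz.symm
  · rw [Finset.card_image_of_injOn hinj, hOcard]
    have h1 := SimpleGraph.odd_ncard_oddComponents (G := Q.coe)
    have h2 : Nat.card Q.verts + U.ncard = Fintype.card N := by
      have h6 : Q.verts = Uᶜ := by
        ext w
        rw [hmem, Set.mem_compl_iff]
      rw [h6, Nat.card_coe_set_eq]
      have h7 := Set.ncard_add_ncard_compl U
      rw [Nat.card_eq_fintype_card] at h7
      omega
    have h3 : U.toFinset.card = U.ncard := by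
      rw [Set.ncard_eq_toFinset_card']
    rw [h3]
    by_contra hcon
    have h4 : Q.coe.oddComponents.ncard = U.ncard + 1 := by omega
    rw [h4] at h1
    rw [← h2, Nat.even_iff] at hev
    rcases Nat.even_or_odd U.ncard with he | ho
    · have h5 := h1.1 he.add_one
      rw [Nat.odd_iff] at h5
      rw [Nat.even_iff] at he
      omega
    · have h6 : ¬ Odd (Nat.card Q.verts) := by
        intro h
        have h7 := h1.2 h
        rw [Nat.odd_iff] at h7 ho
        omega
      rw [Nat.odd_iff] at h6 ho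
      omega

/-- A perfect matching as an involution. -/
theorem invol_of_perfect {N : Type*} {H : SimpleGraph N} {M : H.Subgraph} (hM : M.IsPerfectMatching) :
    ∃ f : N → N, (∀ x, f (f x) = x) ∧ ∀ x, H.Adj x (f x) := by
  classical
  have h0 : ∀ x, ∃! w, M.Adj x w := fun x => hM.1 (hM.2 x)
  refine ⟨fun x => (h0 x).choose, ?_, ?_⟩
  · intro x
    have h1 : M.Adj x (h0 x).choose := (h0 x).choose_spec.1
    have h2 : M.Adj (h0 x).choose (h0 (h0 x).choose).choose := (h0 (h0 x).choose).choose_spec.1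
    exact (h0 (h0 x).choose).unique h2 h1.symm
  · intro x
    exact ((h0 x).choose_spec.1).adj_sub

end H44Z
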