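import Mathlib

/-!
# H44Z, file M2: weights for the gadget of simple 2-matchings, one odd set
-/

set_option autoImplicit false

namespace H44Z

open Finset

variable {V : Type*} [Fintype V] [DecidableEq V]

open Classical in
/-- `1` if exactly one of the statements holds, else `0`. -/
noncomputable def xo (p q : Prop) : ℝ := if (p ↔ q) then 0 else 1

open Classical in
/-- `1` if the statement holds, else `0`. -/
noncomputable def ind (p : Prop) : ℝ := if p then 1 else 0

theorem xo_nonneg (p q : Prop) : 0 ≤ xo p q := by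
  unfold xo
  split_ifs <;> norm_num

theorem xo_iff {p q : Prop} (h : p ↔ q) : xo p q = 0 := by
  unfold xo
  rw [if_pos h]

theorem xo_not {p q : Prop} (h : ¬ (p ↔ q)) : xo p q = 1 := by
  unfold xo
  rw [if_neg h]

theorem xo_comm (p q : Prop) : xo p q = xo q p := by
  unfold xo
  by_cases h : p ↔ q
  · rw [if_pos h, if_pos h.symm]
  · rw [if_neg h, if_neg (fun h' => h h'.symm)]

theorem ind_nonneg (p : Prop) : 0 ≤ ind p := by
  unfold ind
  split_ifs <;> norm_num

/-- The family version of `one end in a member, the other end in u`. -/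
theorem sum_xo {ι : Type*} (I : Finset ι) (p q : ι → Prop) (A B : Prop)
    (hp : ∀ i ∈ I, ∀ j ∈ I, p i → p j → i = j) (hq : ∀ i ∈ I, ∀ j ∈ I, q i → q j → i = j)
    (hA : ∀ i ∈ I, p i → ¬ A) (hB : ∀ i ∈ I, q i → ¬ B) (h1 : ∀ i ∈ I, p i → q i ∨ B)
    (h2 : ∀ i ∈ I, q i → p i ∨ A) : ∑ i ∈ I, xo (p i) (q i) ≤ ind A + ind B := by
  classical
  have key : ∀ (r : ι → Prop), (∀ i ∈ I, ∀ j ∈ I, r i → r j → i = j) → ∑ i ∈ I, ind (r i) ≤ 1 := by
    intro r hr
    by_cases h : ∃ i ∈ I, r i
    · obtain ⟨i, hi, hri⟩ := h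
      rw [Finset.sum_eq_single_of_mem i hi]
      · unfold ind
        split_ifs <;> norm_num
      · intro j hj hji
        unfold ind
        rw [if_neg]
        intro hrj
        exact hji (hr j hj i hi hrj hri)
    · push Not at h
      rw [Finset.sum_eq_zero]
      · norm_num
      · intro i hi
        unfold ind
        rw [if_neg (h i hi)]
  by_cases hAt : A
  · have h3 : ∀ i ∈ I, xo (p i) (q i) = ind (q i) := by
      intro i hi
      have h4 : ¬ p i := fun h => hA i hi h hAt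
      unfold xo ind
      by_cases h5 : q i
      · rw [if_neg (by tauto), if_pos h5]
      · rw [if_pos (by tauto), if_neg h5]
    rw [Finset.sum_congr rfl h3]
    have h4 := key q hq
    have h5 : ind A = 1 := by
      unfold ind
      rw [if_pos hAt]
    have h6 := ind_nonneg B
    linarith
  · by_cases hBt : B
    · have h3 : ∀ i ∈ I, xo (p i) (q i) = ind (p i) := by
        intro i hi
        have h4 : ¬ q i := fun h => hB i hi h hBt
        unfold xo ind
        by_cases h5 : p i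
        · rw [if_neg (by tauto), if_pos h5]
        · rw [if_pos (by tauto), if_neg h5]
      rw [Finset.sum_congr rfl h3]
      have h4 := key p hp
      have h5 : ind B = 1 := by
        unfold ind
        rw [if_pos hBt]
      have h6 := ind_nonneg A
      linarith
    · rw [Finset.sum_eq_zero]
      · exact add_nonneg (ind_nonneg A) (ind_nonneg B)
      · intro i hi
        apply xo_iff
        have h3 := h1 i hi
        have h4 := h2 i hi
        tauto

/-- Weights of a fractional Hamiltonian cycle on ordered pairs. -/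
structure Wt (z : V → V → ℝ) : Prop where
  nn : ∀ a b, 0 ≤ z a b
  le : ∀ a b, z a b ≤ 1
  sym : ∀ a b, z a b = z b a
  dg : ∀ a, z a a = 0
  vt : ∀ a, ∑ b, z a b = 2
  ct : ∀ W : Finset V, W.Nonempty → W ≠ univ → 2 ≤ ∑ a ∈ W, ∑ b ∈ Wᶜ, z a b

/-- The cut weight of the node set `(P, Q)` at the dart `d`. -/
noncomputable def gt (z : V → V → ℝ) (P : Finset (V × Bool)) (Q : Finset (V × V)) (d : V × V) : ℝ :=
  z d.1 d.2 / 2 * (xo ((d.1, true) ∈ P) (d ∈ Q) + xo ((d.1, false) ∈ P) (d ∈ Q)) +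
    (1 - z d.1 d.2) / 2 * xo (d ∈ Q) (d.swap ∈ Q)

/-- The cut weight of the node set `(P, Q)`. -/
noncomputable def gw (z : V → V → ℝ) (P : Finset (V × Bool)) (Q : Finset (V × V)) : ℝ :=
  ∑ d : V × V, gt z P Q d

theorem gt_nonneg {z : V → V → ℝ} (hz : Wt z) (P : Finset (V × Bool)) (Q : Finset (V × V)) (d : V × V) :
    0 ≤ gt z P Q d := by
  unfold gt
  have h1 := hz.nn d.1 d.2
  have h2 := hz.le d.1 d.2
  have h3 := xo_nonneg ((d.1, true) ∈ P) (d ∈ Q)
  have h4 := xo_nonneg ((d.1, false) ∈ P) (d ∈ Q)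
  have h5 := xo_nonneg (d ∈ Q) (d.swap ∈ Q)
  have h6 : 0 ≤ z d.1 d.2 / 2 * (xo ((d.1, true) ∈ P) (d ∈ Q) + xo ((d.1, false) ∈ P) (d ∈ Q)) :=
    mul_nonneg (by linarith) (by linarith)
  have h7 : 0 ≤ (1 - z d.1 d.2) / 2 * xo (d ∈ Q) (d.swap ∈ Q) := mul_nonneg (by linarith) h5
  linarith

theorem gw_nonneg {z : V → V → ℝ} (hz : Wt z) (P : Finset (V × Bool)) (Q : Finset (V × V)) : 0 ≤ gw z P Q :=
  Finset.sum_nonneg (fun d _ => gt_nonneg hz P Q d)

/-- (B1) If exactly one copy of `a` is in the set, the cut weight is at least 1. -/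
theorem B1 {z : V → V → ℝ} (hz : Wt z) {P : Finset (V × Bool)} {Q : Finset (V × V)} (h : gw z P Q < 1) (a : V) :
    (a, true) ∈ P ↔ (a, false) ∈ P := by
  by_contra hne
  have h1 : ∑ b, gt z P Q (a, b) ≤ gw z P Q := by
    unfold gw
    rw [Fintype.sum_prod_type]
    exact Finset.single_le_sum (f := fun a => ∑ b, gt z P Q (a, b))
      (fun a _ => Finset.sum_nonneg (fun b _ => gt_nonneg hz P Q _)) (Finset.mem_univ a)
  have h2 : ∀ b, z a b / 2 ≤ gt z P Q (a, b) := by
    intro b
    unfold gt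
    have h3 : xo ((a, true) ∈ P) ((a, b) ∈ Q) + xo ((a, false) ∈ P) ((a, b) ∈ Q) = 1 := by
      by_cases hq : (a, b) ∈ Q
      · by_cases ht : (a, true) ∈ P
        · rw [xo_iff (by tauto), xo_not (by tauto)]; norm_num
        · rw [xo_not (by tauto), xo_iff (by tauto)]; norm_num
      · by_cases ht : (a, true) ∈ P
        · rw [xo_not (by tauto), xo_iff (by tauto)]; norm_num
        · rw [xo_iff (by tauto), xo_not (by tauto)]; norm_num
    have h4 : 0 ≤ (1 - z a b) / 2 * xo ((a, b) ∈ Q) ((a, b).swap ∈ Q) :=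
      mul_nonneg (by linarith [hz.le a b]) (xo_nonneg _ _)
    simp only
    rw [h3]
    linarith
  have h3 : (1 : ℝ) ≤ ∑ b, gt z P Q (a, b) := by
    calc (1 : ℝ) = ∑ b, z a b / 2 := by rw [← Finset.sum_div, hz.vt]; norm_num
      _ ≤ _ := Finset.sum_le_sum (fun b _ => h2 b)
  linarith

/-- The vertices whose copies are in the set. -/
def WW (P : Finset (V × Bool)) : Finset V := univ.filter (fun a => (a, true) ∈ P)

theorem mem_WW {P : Finset (V × Bool)} {a : V} : a ∈ WW P ↔ (a, true) ∈ P := by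
  simp [WW]

/-- The unpaired darts of the set. -/
def FF (Q : Finset (V × V)) : Finset (V × V) := Q.filter (fun d => d.swap ∉ Q)

omit [Fintype V] in
theorem mem_FF {Q : Finset (V × V)} {d : V × V} : d ∈ FF Q ↔ d ∈ Q ∧ d.swap ∉ Q := by
  simp [FF]

/-- The darts leaving `W`. -/
def dl (W : Finset V) : Finset (V × V) := univ.filter (fun d => d.1 ∈ W ∧ d.2 ∉ W)

theorem mem_dl {W : Finset V} {d : V × V} : d ∈ dl W ↔ d.1 ∈ W ∧ d.2 ∉ W := by
  simp [dl]

theorem gt_pair {z : V → V → ℝ} (hz : Wt z) {P : Finset (V × Bool)} {Q : Finset (V × V)} (h : gw z P Q < 1)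
    (d : V × V) : gt z P Q d + gt z P Q d.swap = z d.1 d.2 * (xo (d.1 ∈ WW P) (d ∈ Q) +
      xo (d.2 ∈ WW P) (d.swap ∈ Q)) + (1 - z d.1 d.2) * xo (d ∈ Q) (d.swap ∈ Q) := by
  have h1 : ∀ a : V, ∀ q : Prop, xo ((a, true) ∈ P) q = xo (a ∈ WW P) q := by
    intro a q
    have h5 : ((a, true) ∈ P) = (a ∈ WW P) := propext mem_WW.symm
    rw [h5]
  have h2 : ∀ a : V, ∀ q : Prop, xo ((a, false) ∈ P) q = xo (a ∈ WW P) q := by
    intro a q
    have h5 : ((a, false) ∈ P) = (a ∈ WW P) := propext (by rw [mem_WW]; exact (B1 hz h a).symm)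
    rw [h5]
  unfold gt
  rw [h1, h2, h1, h2]
  simp only [Prod.fst_swap, Prod.snd_swap, Prod.swap_swap]
  rw [hz.sym d.2 d.1, xo_comm (d.swap ∈ Q) (d ∈ Q)]
  ring

/-- (B2) An unpaired dart leaves `W`. -/
theorem B2 {z : V → V → ℝ} (hz : Wt z) {P : Finset (V × Bool)} {Q : Finset (V × V)} (h : gw z P Q < 1)
    (hQ : ∀ d ∈ Q, d.1 ≠ d.2) : FF Q ⊆ dl (WW P) := by
  intro d hd
  rw [mem_FF] at hd
  rw [mem_dl]
  by_contra hcon
  have hne : d ≠ d.swap := by
    intro h1
    have := congrArg Prod.fst h1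
    simp only [Prod.fst_swap] at this
    exact hQ d hd.1 this
  have h1 : gt z P Q d + gt z P Q d.swap ≤ gw z P Q := by
    unfold gw
    rw [← Finset.sum_pair hne]
    exact Finset.sum_le_sum_of_subset_of_nonneg (Finset.subset_univ _) (fun d _ _ => gt_nonneg hz P Q d)
  rw [gt_pair hz h, xo_not (p := d ∈ Q) (q := d.swap ∈ Q) (by tauto)] at h1
  have h2 : 1 ≤ xo (d.1 ∈ WW P) (d ∈ Q) + xo (d.2 ∈ WW P) (d.swap ∈ Q) := by
    by_cases h3 : d.1 ∈ WW P
    · have h4 : d.2 ∈ WW P := by
        by_contra h4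
        exact hcon ⟨h3, h4⟩
      rw [xo_not (p := d.2 ∈ WW P) (by tauto)]
      linarith [xo_nonneg (d.1 ∈ WW P) (d ∈ Q)]
    · rw [xo_not (p := d.1 ∈ WW P) (by tauto)]
      linarith [xo_nonneg (d.2 ∈ WW P) (d.swap ∈ Q)]
  have h3 := mul_le_mul_of_nonneg_left h2 (hz.nn d.1 d.2)
  linarith

/-- (B4) The lower bound for the cut weight. -/
theorem B4 {z : V → V → ℝ} (hz : Wt z) {P : Finset (V × Bool)} {Q : Finset (V × V)} (h : gw z P Q < 1) :
    ∑ d ∈ dl (WW P), (if d ∈ FF Q then 1 - z d.1 d.2 else z d.1 d.2) ≤ gw z P Q := by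
  set W := WW P with hW
  have h1 : ∑ d ∈ dl W, (gt z P Q d + gt z P Q d.swap) ≤ gw z P Q := by
    rw [Finset.sum_add_distrib]
    have h2 : ∑ d ∈ dl W, gt z P Q d.swap = ∑ d ∈ (dl W).image Prod.swap, gt z P Q d := by
      rw [Finset.sum_image]
      intro a _ b _ hab
      exact Prod.swap_injective hab
    rw [h2, ← Finset.sum_union]
    · exact Finset.sum_le_sum_of_subset_of_nonneg (Finset.subset_univ _) (fun d _ _ => gt_nonneg hz P Q d)
    · rw [Finset.disjoint_left]
      intro d hd hd'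
      obtain ⟨e, he, rfl⟩ := Finset.mem_image.1 hd'
      rw [mem_dl] at hd he
      simp only [Prod.fst_swap, Prod.snd_swap] at hd
      exact he.2 hd.1
  refine le_trans (Finset.sum_le_sum ?_) h1
  intro d hd
  rw [mem_dl] at hd
  rw [gt_pair hz h, ← hW]
  have hn := hz.nn d.1 d.2
  have hl := hz.le d.1 d.2
  split_ifs with hF
  · rw [mem_FF] at hF
    rw [xo_iff (p := d.1 ∈ W) (by tauto), xo_iff (p := d.2 ∈ W) (by tauto), xo_not (p := d ∈ Q) (by tauto)]
    linarith
  · rw [mem_FF] at hF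
    by_cases h3 : d ∈ Q
    · have h4 : d.swap ∈ Q := by
        by_contra h4
        exact hF ⟨h3, h4⟩
      rw [xo_iff (p := d.1 ∈ W) (by tauto), xo_not (p := d.2 ∈ W) (by tauto), xo_iff (p := d ∈ Q) (by tauto)]
      linarith
    · by_cases h4 : d.swap ∈ Q
      · rw [xo_not (p := d.1 ∈ W) (by tauto), xo_not (p := d.2 ∈ W) (by tauto), xo_not (p := d ∈ Q) (by tauto)]
        linarith
      · rw [xo_not (p := d.1 ∈ W) (by tauto), xo_iff (p := d.2 ∈ W) (by tauto), xo_iff (p := d ∈ Q) (by tauto)]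
        linarith

omit [Fintype V] in
/-- (B3) The number of unpaired darts is odd. -/
theorem B3' {Q : Finset (V × V)} (hQ : ∀ d ∈ Q, d.1 ≠ d.2) : (FF Q).card % 2 = Q.card % 2 := by
  have h1 : Q.card = (FF Q).card + (Q.filter (fun d => ¬ d.swap ∉ Q)).card := by
    unfold FF
    rw [Finset.card_filter_add_card_filter_not]
  have h2 : Even (Q.filter (fun d => ¬ d.swap ∉ Q)).card := by
    have h3 : ∑ d ∈ Q.filter (fun d => ¬ d.swap ∉ Q), (1 : ZMod 2) = 0 := by
      apply Finset.sum_involution (fun d _ => d.swap)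
      · intro d _
        decide
      · intro d hd _ h4
        rw [Finset.mem_filter] at hd
        have := congrArg Prod.fst h4
        simp only [Prod.fst_swap] at this
        exact hQ d hd.1 this.symm
      · intro d _
        exact Prod.swap_swap d
      · intro d hd
        rw [Finset.mem_filter] at hd ⊢
        simp only [not_not, Prod.swap_swap] at hd ⊢
        exact ⟨hd.2, hd.1⟩
    rw [Finset.sum_const, nsmul_eq_mul, mul_one] at h3
    exact (ZMod.natCast_eq_zero_iff_even).1 h3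
  rw [Nat.even_iff] at h2
  omega

/-- (B3) The number of unpaired darts is odd. -/
theorem B3 {z : V → V → ℝ} (hz : Wt z) {P : Finset (V × Bool)} {Q : Finset (V × V)} (h : gw z P Q < 1)
    (hQ : ∀ d ∈ Q, d.1 ≠ d.2) (hodd : Odd (P.card + Q.card)) : Odd (FF Q).card := by
  have h1 : P.card = 2 * (WW P).card := by
    have h2 : P = (WW P).product (univ : Finset Bool) := by
      ext ⟨a, b⟩
      rw [Finset.product_eq_sprod, Finset.mem_product, mem_WW]
      simp only [Finset.mem_univ, and_true]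
      cases b
      · exact (B1 hz h a).symm
      · exact Iff.rfl
    have h3 := congrArg Finset.card h2
    rw [Finset.product_eq_sprod, Finset.card_product, Finset.card_univ, Fintype.card_bool] at h3
    omega
  have h2 := B3' hQ
  rw [Nat.odd_iff] at hodd ⊢
  omega

theorem dl_sum {z : V → V → ℝ} (W : Finset V) : ∑ d ∈ dl W, z d.1 d.2 = ∑ a ∈ W, ∑ b ∈ Wᶜ, z a b := by
  have h1 : dl W = W ×ˢ Wᶜ := by
    ext d
    rw [mem_dl, Finset.mem_product, Finset.mem_compl]
  rw [h1, Finset.sum_product]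

/-- The inequality of (B4) in numbers. -/
theorem B4' {z : V → V → ℝ} (hz : Wt z) {P : Finset (V × Bool)} {Q : Finset (V × V)} (h : gw z P Q < 1)
    (hQ : ∀ d ∈ Q, d.1 ≠ d.2) : ((FF Q).card : ℝ) - 2 * ∑ d ∈ FF Q, z d.1 d.2 + ∑ d ∈ dl (WW P), z d.1 d.2 < 1 := by
  have h1 := lt_of_le_of_lt (B4 hz h) h
  have h2 := B2 hz h hQ
  have h3 : ∑ d ∈ dl (WW P), (if d ∈ FF Q then 1 - z d.1 d.2 else z d.1 d.2) =
      ((FF Q).card : ℝ) - 2 * ∑ d ∈ FF Q, z d.1 d.2 + ∑ d ∈ dl (WW P), z d.1 d.2 := by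
    rw [← Finset.sum_sdiff h2, ← Finset.sum_sdiff (f := fun d : V × V => z d.1 d.2) h2]
    have h4 : ∑ d ∈ dl (WW P) \ FF Q, (if d ∈ FF Q then 1 - z d.1 d.2 else z d.1 d.2) =
        ∑ d ∈ dl (WW P) \ FF Q, z d.1 d.2 :=
      Finset.sum_congr rfl (fun d hd => by rw [if_neg (Finset.mem_sdiff.1 hd).2])
    have h5 : ∑ d ∈ FF Q, (if d ∈ FF Q then 1 - z d.1 d.2 else z d.1 d.2) = ((FF Q).card : ℝ) - ∑ d ∈ FF Q, z d.1 d.2 := by
      rw [Finset.sum_congr rfl (fun d hd => by rw [if_pos hd] :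
        ∀ d ∈ FF Q, (if d ∈ FF Q then 1 - z d.1 d.2 else z d.1 d.2) = 1 - z d.1 d.2), Finset.sum_sub_distrib,
        Finset.sum_const, nsmul_eq_mul, mul_one]
    rw [h4, h5]
    ring
  linarith

/-- (B5) and (B6): at least three unpaired darts, at least three vertices. -/
theorem B56 {z : V → V → ℝ} (hz : Wt z) {P : Finset (V × Bool)} {Q : Finset (V × V)} (h : gw z P Q < 1)
    (hQ : ∀ d ∈ Q, d.1 ≠ d.2) (hodd : Odd (P.card + Q.card)) : 3 ≤ (FF Q).card ∧ 3 ≤ (WW P).card := by
  have h0 := B3 hz h hQ hodd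
  have h1 := B4' hz h hQ
  have h2 := B2 hz h hQ
  set W := WW P with hW
  set F := FF Q with hF
  have hne : F.Nonempty := by
    rw [← Finset.card_pos]
    exact h0.pos
  obtain ⟨d0, hd0⟩ := hne
  have hd0' := mem_dl.1 (h2 hd0)
  have hWne : W.Nonempty := ⟨_, hd0'.1⟩
  have hWu : W ≠ univ := fun h3 => hd0'.2 (h3 ▸ Finset.mem_univ _)
  have hcut := hz.ct W hWne hWu
  rw [← dl_sum] at hcut
  have hYF : ∑ d ∈ F, z d.1 d.2 ≤ ∑ d ∈ dl W, z d.1 d.2 :=
    Finset.sum_le_sum_of_subset_of_nonneg h2 (fun d _ _ => hz.nn _ _)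
  have hYc : ∑ d ∈ F, z d.1 d.2 ≤ (F.card : ℝ) := by
    calc ∑ d ∈ F, z d.1 d.2 ≤ ∑ _d ∈ F, (1 : ℝ) := Finset.sum_le_sum (fun d _ => hz.le _ _)
      _ = (F.card : ℝ) := by simp
  have h3 : 3 ≤ F.card := by
    by_contra h4
    have h5 : F.card = 1 := by
      rw [Nat.odd_iff] at h0
      have := h0
      omega
    rw [h5] at h1 hYc
    push_cast at h1 hYc
    linarith
  refine ⟨h3, ?_⟩
  have h3' : (3 : ℝ) ≤ (F.card : ℝ) := by exact_mod_cast h3
  by_contra h4
  have h5 : W.card = 1 ∨ W.card = 2 := by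
    have := hWne.card_pos
    omega
  rcases h5 with h5 | h5
  · -- one vertex
    obtain ⟨a, ha⟩ := Finset.card_eq_one.1 h5
    have h6 : ∑ d ∈ dl W, z d.1 d.2 ≤ 2 := by
      rw [dl_sum, ha, Finset.sum_singleton, ← hz.vt a]
      exact Finset.sum_le_sum_of_subset_of_nonneg (Finset.subset_univ _) (fun b _ _ => hz.nn _ _)
    linarith
  · -- two vertices
    obtain ⟨a, a', hne, ha⟩ := Finset.card_eq_two.1 h5
    have hdeg : ∀ x y : V, x ≠ y → ∑ b ∈ ({x, y} : Finset V)ᶜ, z x b = 2 - z x y := by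
      intro x y hxy
      have h6 := Finset.sum_compl_add_sum ({x, y} : Finset V) (fun b => z x b)
      rw [Finset.sum_pair hxy, hz.dg, hz.vt] at h6
      linarith
    have h6 : ∑ d ∈ dl W, z d.1 d.2 = 4 - 2 * z a a' := by
      rw [dl_sum, ha, Finset.sum_pair hne, hdeg a a' hne]
      have h7 := hdeg a' a hne.symm
      rw [Finset.pair_comm] at h7
      rw [h7, hz.sym a' a]
      ring
    by_cases h7 : 5 ≤ F.card
    · have h8 : (5 : ℝ) ≤ (F.card : ℝ) := by exact_mod_cast h7
      have := hz.nn a a'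
      linarith
    · have h8 : F.card = 3 := by
        rw [Nat.odd_iff] at h0
        omega
      -- the darts at one of the two vertices
      have h9 : F.card = (F.filter (fun d => d.1 = a)).card + (F.filter (fun d => ¬ d.1 = a)).card :=
        (Finset.card_filter_add_card_filter_not _).symm
      have hbound : ∀ x y : V, x ≠ y → W = {x, y} → ∑ d ∈ F.filter (fun d => d.1 = x), z d.1 d.2 ≤ 2 - z x y := by
        intro x y hxy hWx
        rw [← hdeg x y hxy]
        have h10 : ∑ b ∈ ({x, y} : Finset V)ᶜ, z x b = ∑ d ∈ (({x, y} : Finset V)ᶜ).image (fun b => (x, b)), z d.1 d.2 := by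
          rw [Finset.sum_image]
          intro p _ q _ hpq
          exact (Prod.ext_iff.1 hpq).2
        rw [h10]
        apply Finset.sum_le_sum_of_subset_of_nonneg
        · intro d hd
          rw [Finset.mem_filter] at hd
          have h11 := mem_dl.1 (h2 hd.1)
          refine Finset.mem_image.2 ⟨d.2, ?_, ?_⟩
          · rw [Finset.mem_compl, ← hWx]
            exact h11.2
          · rw [← hd.2]
        · intro d _ _
          exact hz.nn _ _
      have hone : ∀ S : Finset (V × V), S.card ≤ 1 → ∑ d ∈ S, z d.1 d.2 ≤ 1 := by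
        intro S hS
        calc ∑ d ∈ S, z d.1 d.2 ≤ ∑ _d ∈ S, (1 : ℝ) := Finset.sum_le_sum (fun d _ => hz.le _ _)
          _ = (S.card : ℝ) := by simp
          _ ≤ 1 := by exact_mod_cast hS
      have hsum : ∑ d ∈ F, z d.1 d.2 = ∑ d ∈ F.filter (fun d => d.1 = a), z d.1 d.2 +
          ∑ d ∈ F.filter (fun d => ¬ d.1 = a), z d.1 d.2 := (Finset.sum_filter_add_sum_filter_not F _ _).symm
      have hcast : (F.card : ℝ) = 3 := by rw [h8]; norm_num
      by_cases h10 : (F.filter (fun d => d.1 = a)).card ≤ 1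
      · have h11 := hone _ h10
        have h12 : F.filter (fun d => ¬ d.1 = a) = F.filter (fun d => d.1 = a') := by
          apply Finset.filter_congr
          intro d hd
          have h13 := (mem_dl.1 (h2 hd)).1
          rw [ha, Finset.mem_insert, Finset.mem_singleton] at h13
          constructor
          · intro h14
            tauto
          · intro h14 h15
            exact hne (h15.symm.trans h14)
        rw [h12] at hsum
        have h13 := hbound a' a hne.symm (by rw [ha, Finset.pair_comm])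
        rw [hz.sym a' a] at h13
        linarith
      · have h11 : (F.filter (fun d => ¬ d.1 = a)).card ≤ 1 := by omega
        have h12 := hone _ h11
        have h13 := hbound a a' hne ha
        linarith

end H44Z
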