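import Pool.Agent.Lib.H44Z.M4

/-!
# H44Z, file M5: `two_matching` in the language of simple graphs
-/

set_option autoImplicit false

namespace H44Z

open Finset H63F

variable {V : Type*} [Fintype V] [DecidableEq V]

/-- If `G` carries a fractional Hamiltonian cycle (`n ≥ 3`), then `G` has a subgraph `F` in which every vertex has at
most two neighbours (disjoint paths and cycles) with at least `8 n / 9` edges. -/
theorem two_matching_graph {G : Finset (Sym2 V)} {y : Sym2 V → ℝ} (h : FracHam G y) (hn : 3 ≤ Fintype.card V) :
    ∃ F ≤ SimpleGraph.fromEdgeSet (G : Set (Sym2 V)), (∀ v, (F.neighborSet v).ncard ≤ 2) ∧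
      8 * Fintype.card V ≤ 9 * F.edgeSet.ncard := by
  classical
  obtain ⟨F, hFG, hd, hc⟩ := two_matching h hn
  refine ⟨SimpleGraph.fromEdgeSet (F : Set (Sym2 V)), ?_, ?_, ?_⟩
  · exact SimpleGraph.fromEdgeSet_mono (by exact_mod_cast hFG)
  · intro v
    refine le_trans ?_ (hd v)
    have h1 : (SimpleGraph.fromEdgeSet (F : Set (Sym2 V))).neighborSet v =
        ((SimpleGraph.fromEdgeSet (F : Set (Sym2 V))).neighborSet v).toFinset := by simp
    rw [h1, Set.ncard_coe_finset]
    apply Finset.card_le_card_of_injOn (fun w => s(v, w))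
    · intro w hw
      have h2 : w ∈ (SimpleGraph.fromEdgeSet (F : Set (Sym2 V))).neighborSet v := by simpa using hw
      rw [SimpleGraph.mem_neighborSet, SimpleGraph.fromEdgeSet_adj] at h2
      rw [Finset.mem_coe, Finset.mem_filter]
      exact ⟨Finset.mem_coe.1 h2.1, Sym2.mem_mk_left _ _⟩
    · intro a _ b _ hab
      exact Sym2.congr_right.1 hab
  · have h1 : (SimpleGraph.fromEdgeSet (F : Set (Sym2 V))).edgeSet = (F : Set (Sym2 V)) := by
      rw [SimpleGraph.edgeSet_fromEdgeSet]
      ext e
      constructor
      · intro h2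
        exact h2.1
      · intro h2
        refine ⟨h2, ?_⟩
        induction e using Sym2.ind with
        | _ a b =>
          intro h3
          have h4 : a = b := by simpa using h3
          subst h4
          exact h.loop _ (hFG (Finset.mem_coe.1 h2))
    rw [h1, Set.ncard_coe_finset]
    exact hc

end H44Z
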