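import Pool.Agent.Lib.H63F.T1b
import Pool.Agent.Lib.H63F.T1a
import Pool.Agent.Lib.H44Z.E2

/-!
# H44Z, file W: a closed walk through all vertices of length at most `3 n / 2 - 1` from a fractional Hamiltonian cycle
-/

set_option autoImplicit false

namespace H44Z

open Finset H63F

variable {V : Type*} [Fintype V] [DecidableEq V]

set_option linter.unusedSectionVars false

private theorem px_nonneg' (e : Sym2 V) (S : Finset V) : 0 ≤ px e S := by
  unfold px
  split_ifs <;> norm_num

private theorem px_zero {a b : V} {S : Finset V} (h : a ∈ S ↔ b ∈ S) : px s(a, b) S = 0 := by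
  unfold px
  rw [if_neg]
  rintro ⟨u, hu, v, hv, he⟩
  rcases Sym2.eq_iff.1 he with ⟨h1, h2⟩ | ⟨h1, h2⟩
  · subst h1; subst h2; exact hv (h.1 hu)
  · subst h1; subst h2; exact hv (h.2 hu)

private theorem px_one {a b : V} {S : Finset V} (ha : a ∈ S) (hb : b ∉ S) : px s(a, b) S = 1 := by
  unfold px
  rw [if_pos ⟨a, ha, b, hb, rfl⟩]

/-- the classes outside `S` -/
private noncomputable def cls (S : Finset V) (c : V → V) (i : V) : Finset V :=
  univ.filter (fun v => v ∉ S ∧ c v = i)

private theorem mem_cls {S : Finset V} {c : V → V} {i v : V} : v ∈ cls S c i ↔ v ∉ S ∧ c v = i := by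
  simp [cls]

private theorem px_sum_in {S : Finset V} {c : V → V} {a b : V} (ha : a ∈ S) (hb : b ∉ S) (I : Finset V) :
    ∑ i ∈ I, px s(a, b) (cls S c i) ≤ 1 := by
  have h0 : ∀ i ∈ I, i ≠ c b → px s(a, b) (cls S c i) = 0 := by
    intro i _ hi
    apply px_zero
    simp only [mem_cls]
    constructor
    · intro h; exact absurd ha h.1
    · intro h; exact absurd h.2.symm hi
  have h1 : ∀ i, px s(a, b) (cls S c i) ≤ 1 := by
    intro i
    unfold px
    split_ifs <;> norm_num
  by_cases hI : c b ∈ I
  · rw [Finset.sum_eq_single_of_mem (c b) hI h0]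
    exact h1 _
  · rw [Finset.sum_eq_zero]
    · norm_num
    · intro i hi
      exact h0 i hi (fun h => hI (h ▸ hi))

private theorem key {G : Finset (Sym2 V)} {y : Sym2 V → ℝ} (h : FracHam G y) {S : Finset V} {c : V → V}
    (hc : ∀ u, u ∉ S → ∀ v, v ∉ S → s(u, v) ∈ G → c u = c v) (I : Finset V) (e : Sym2 V) :
    ∑ i ∈ I, y e * px e (cls S c i) ≤ ∑ v ∈ S, y e * px e {v} := by
  by_cases he : e ∈ G
  · rw [← Finset.mul_sum, ← Finset.mul_sum]
    apply mul_le_mul_of_nonneg_left _ (h.nonneg e)
    induction e using Sym2.ind with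
    | _ a b =>
      have hab : a ≠ b := by
        rintro rfl
        exact h.loop a he
      have hnn : 0 ≤ ∑ v ∈ S, px s(a, b) {v} := Finset.sum_nonneg (fun v _ => px_nonneg' _ _)
      by_cases ha : a ∈ S
      · by_cases hb : b ∈ S
        · rw [Finset.sum_eq_zero]
          · exact hnn
          · intro i _
            apply px_zero
            simp only [mem_cls]
            constructor
            · intro h; exact absurd ha h.1
            · intro h; exact absurd hb h.1
        · refine (px_sum_in ha hb I).trans ?_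
          have h1 : px s(a, b) ({a} : Finset V) = 1 :=
            px_one (Finset.mem_singleton_self a) (by simpa using hab.symm)
          rw [← h1]
          exact Finset.single_le_sum (f := fun v => px s(a, b) ({v} : Finset V))
            (fun v _ => px_nonneg' _ _) ha
      · by_cases hb : b ∈ S
        · rw [Sym2.eq_swap]
          refine (px_sum_in hb ha I).trans ?_
          have h1 : px s(b, a) ({b} : Finset V) = 1 :=
            px_one (Finset.mem_singleton_self b) (by simpa using hab)
          rw [← h1]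
          exact Finset.single_le_sum (f := fun v => px s(b, a) ({v} : Finset V))
            (fun v _ => px_nonneg' _ _) hb
        · have hcc : c a = c b := hc a ha b hb he
          rw [Finset.sum_eq_zero]
          · exact hnn
          · intro i _
            apply px_zero
            simp only [mem_cls]
            constructor
            · intro h; exact ⟨hb, hcc ▸ h.2⟩
            · intro h; exact ⟨ha, hcc ▸ h.2⟩
  · simp [h.supp e he]

/-- An edge inside `S` is counted twice on the right. -/
private theorem key2 {G : Finset (Sym2 V)} {y : Sym2 V → ℝ} (h : FracHam G y) {S : Finset V} (c : V → V)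
    (I : Finset V) {a v : V} (ha : a ∈ S) (hv : v ∈ S) (hav : a ≠ v) :
    (∑ i ∈ I, y s(a, v) * px s(a, v) (cls S c i)) + 2 * y s(a, v) ≤ ∑ w ∈ S, y s(a, v) * px s(a, v) {w} := by
  have h0 : ∑ i ∈ I, y s(a, v) * px s(a, v) (cls S c i) = 0 := by
    apply Finset.sum_eq_zero
    intro i _
    rw [px_zero, mul_zero]
    simp only [mem_cls]
    constructor
    · intro h1; exact absurd ha h1.1
    · intro h1; exact absurd hv h1.1
  rw [h0, zero_add, ← Finset.mul_sum, mul_comm (2 : ℝ)]
  apply mul_le_mul_of_nonneg_left _ (h.nonneg _)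
  have h1 : ({a, v} : Finset V) ⊆ S := by
    intro x hx
    rw [Finset.mem_insert, Finset.mem_singleton] at hx
    rcases hx with rfl | rfl
    · exact ha
    · exact hv
  have h2 : ∑ w ∈ ({a, v} : Finset V), px s(a, v) ({w} : Finset V) = 2 := by
    rw [Finset.sum_pair hav, px_one (Finset.mem_singleton_self a) (by simpa using hav.symm), Sym2.eq_swap,
      px_one (Finset.mem_singleton_self v) (by simpa using hav)]
    norm_num
  rw [← h2]
  exact Finset.sum_le_sum_of_subset_of_nonneg h1 (fun w _ _ => px_nonneg' _ _)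

/-- Toughness with one to spare, if `S` contains both ends of an edge of positive weight. -/
theorem tough_lt {G : Finset (Sym2 V)} {y : Sym2 V → ℝ} (h : FracHam G y) {S : Finset V} {c : V → V}
    (hc : ∀ u, u ∉ S → ∀ v, v ∉ S → s(u, v) ∈ G → c u = c v) {a v : V} (ha : a ∈ S) (hv : v ∈ S) (hav : a ≠ v)
    (hy : 0 < y s(a, v)) : ((univ \ S).image c).card + 1 ≤ S.card := by
  have h1 : (∑ i ∈ (univ \ S).image c, cutw y (cls S c i)) + 2 * y s(a, v) ≤ ∑ v ∈ S, cutw y {v} := by
    unfold cutw
    rw [Finset.sum_comm, Finset.sum_comm (s := S)]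
    rw [← Finset.add_sum_erase univ _ (Finset.mem_univ s(a, v)),
      ← Finset.add_sum_erase (s := univ) (fun e => ∑ w ∈ S, y e * px e {w}) (Finset.mem_univ s(a, v))]
    have h2 := key2 h c ((univ \ S).image c) ha hv hav
    have h3 : ∑ e ∈ univ.erase s(a, v), ∑ i ∈ (univ \ S).image c, y e * px e (cls S c i) ≤
        ∑ e ∈ univ.erase s(a, v), ∑ w ∈ S, y e * px e {w} :=
      Finset.sum_le_sum (fun e _ => key h hc _ e)
    linarith
  have h2 : ∑ _i ∈ (univ \ S).image c, (2 : ℝ) ≤ ∑ i ∈ (univ \ S).image c, cutw y (cls S c i) := by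
    apply Finset.sum_le_sum
    intro i hi
    obtain ⟨w, hw, rfl⟩ := Finset.mem_image.1 hi
    have hwS : w ∉ S := (Finset.mem_sdiff.1 hw).2
    apply h.cut
    · exact ⟨w, mem_cls.2 ⟨hwS, rfl⟩⟩
    · intro heq
      have : a ∈ cls S c (c w) := heq ▸ Finset.mem_univ a
      exact (mem_cls.1 this).1 ha
  have h3 : ∑ v ∈ S, cutw y {v} = 2 * (S.card : ℝ) := by
    rw [Finset.sum_congr rfl (fun v _ => h.vert v), Finset.sum_const, nsmul_eq_mul, mul_comm]
  rw [Finset.sum_const, nsmul_eq_mul] at h2
  have h4 : ((((univ \ S).image c).card : ℕ) : ℝ) < (S.card : ℝ) := by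
    rw [h3] at h1
    linarith
  have h5 : ((univ \ S).image c).card < S.card := by exact_mod_cast h4
  omega

/-- The number of components of a graph `H` whose vertices are embedded as the complement of `S`, and which
contains all edges of `G` there, is at most any bound `k` for the number of values of the functions constant along
the edges. -/
private theorem T1b_comp_le {W : Type*} [Finite W] (G : Finset (Sym2 V)) (H : SimpleGraph W) (f : W → V)
    (hf : Function.Injective f) (S : Finset V) (hS : ∀ w, f w ∉ S) (hS' : ∀ v, v ∉ S → ∃ w, f w = v)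
    (hadj : ∀ a b, s(f a, f b) ∈ G → a ≠ b → H.Adj a b) (k : ℕ)
    (ht : ∀ c : V → V, (∀ u, u ∉ S → ∀ v, v ∉ S → s(u, v) ∈ G → c u = c v) → ((univ \ S).image c).card ≤ k) :
    Nat.card H.ConnectedComponent ≤ k := by
  classical
  let c : V → V := fun v => if h : ∃ w, f w = v then f (Quot.out (H.connectedComponentMk h.choose)) else v
  have hc : ∀ w, c (f w) = f (Quot.out (H.connectedComponentMk w)) := by
    intro w
    have h : ∃ w', f w' = f w := ⟨w, rfl⟩
    have h1 : h.choose = w := hf h.choose_spec
    simp only [c]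
    rw [dif_pos h, h1]
  have h1 := ht c (by
    intro u hu v hv huv
    obtain ⟨a, rfl⟩ := hS' u hu
    obtain ⟨b, rfl⟩ := hS' v hv
    rw [hc, hc]
    by_cases hab : a = b
    · rw [hab]
    · have := hadj a b huv hab
      rw [SimpleGraph.ConnectedComponent.sound this.reachable])
  refine le_trans ?_ h1
  have : Finite H.ConnectedComponent := inferInstance
  cases nonempty_fintype H.ConnectedComponent
  rw [Nat.card_eq_fintype_card, ← Finset.card_univ]
  refine Finset.card_le_card_of_injOn (fun C => f (Quot.out C)) ?_ ?_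
  · intro C _
    rw [Finset.mem_coe, Finset.mem_image]
    refine ⟨f (Quot.out C), ?_, ?_⟩
    · rw [Finset.mem_sdiff]
      exact ⟨Finset.mem_univ _, hS _⟩
    · rw [hc]
      have : H.connectedComponentMk (Quot.out C) = C := Quot.out_eq C
      rw [this]
  · intro C _ C' _ h
    have h2 : Quot.out C = Quot.out C' := hf h
    rw [← Quot.out_eq C, ← Quot.out_eq C', h2]

private theorem T1b_odd_le {W : Type*} [Finite W] (H : SimpleGraph W) (k : ℕ)
    (h : Nat.card H.ConnectedComponent ≤ k) : H.oddComponents.ncard ≤ k := by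
  have : Finite H.ConnectedComponent := inferInstance
  exact le_trans (Set.ncard_le_card _) h

/-- Even number of vertices: both ends of an edge of positive weight may be left out. -/
theorem perfect_pair {G : Finset (Sym2 V)} {y : Sym2 V → ℝ} (h : FracHam G y) (heven : Even (Fintype.card V))
    {a v : V} (hav : a ≠ v) (hy : 0 < y s(a, v)) :
    ∃ M : (SimpleGraph.fromEdgeSet (G : Set (Sym2 V))).Subgraph, M.IsMatching ∧ M.verts = {a, v}ᶜ := by
  classical
  set G' := SimpleGraph.fromEdgeSet (G : Set (Sym2 V)) with hG'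
  have key : ∃ M : (G'.induce ({a, v}ᶜ : Set V)).Subgraph, M.IsPerfectMatching := by
    rw [SimpleGraph.tutte]
    intro u hu
    unfold SimpleGraph.IsTutteViolator at hu
    set H := ((⊤ : (G'.induce ({a, v}ᶜ : Set V)).Subgraph).deleteVerts u).coe with hH
    have hmem : ∀ w : ({a, v}ᶜ : Set V), w ∈ ((⊤ : (G'.induce ({a, v}ᶜ : Set V)).Subgraph).deleteVerts u).verts ↔
        w ∉ u := by
      intro w
      simp
    have hnot : ∀ w : ({a, v}ᶜ : Set V), (w : V) ≠ a ∧ (w : V) ≠ v := by
      intro w
      have := w.2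
      rw [Set.mem_compl_iff, Set.mem_insert_iff, Set.mem_singleton_iff, not_or] at this
      exact this
    let U : Finset V := u.toFinset.image (fun w : ({a, v}ᶜ : Set V) => (w : V))
    have hUm : ∀ x : V, x ∈ U ↔ ∃ w : ({a, v}ᶜ : Set V), w ∈ u ∧ (w : V) = x := by
      intro x
      simp only [U]
      rw [Finset.mem_image]
      constructor
      · rintro ⟨w, hw, hx⟩
        exact ⟨w, Set.mem_toFinset.1 hw, hx⟩
      · rintro ⟨w, hw, hx⟩
        exact ⟨w, Set.mem_toFinset.2 hw, hx⟩
    have hUc : U.card = u.ncard := by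
      simp only [U]
      rw [Finset.card_image_of_injective _ Subtype.val_injective, Set.ncard_eq_toFinset_card']
    have haU : a ∉ U := by
      intro h1
      obtain ⟨w, _, hw⟩ := (hUm a).1 h1
      exact (hnot w).1 hw
    have hvU : v ∉ U := by
      intro h1
      obtain ⟨w, _, hw⟩ := (hUm v).1 h1
      exact (hnot w).2 hw
    have hScard : (insert a (insert v U)).card = u.ncard + 2 := by
      rw [Finset.card_insert_of_notMem, Finset.card_insert_of_notMem hvU, hUc]
      rw [Finset.mem_insert, not_or]
      exact ⟨hav, haU⟩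
    have h1 : Nat.card H.ConnectedComponent ≤ u.ncard + 1 := by
      refine T1b_comp_le G H (fun w => ((w : ({a, v}ᶜ : Set V)) : V))
        (fun a b h => Subtype.ext (Subtype.ext h)) (insert a (insert v U)) ?_ ?_ ?_ _ ?_
      · intro w hw
        rw [Finset.mem_insert, Finset.mem_insert] at hw
        rcases hw with hw | hw | hw
        · exact (hnot w.1).1 hw
        · exact (hnot w.1).2 hw
        · obtain ⟨x, hx, hxw⟩ := (hUm _).1 hw
          have : x = w.1 := Subtype.ext hxw
          exact (hmem _).1 w.2 (this ▸ hx)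
      · intro w hw
        rw [Finset.mem_insert, Finset.mem_insert, not_or, not_or] at hw
        have hwv : w ∈ ({a, v}ᶜ : Set V) := by
          rw [Set.mem_compl_iff, Set.mem_insert_iff, Set.mem_singleton_iff, not_or]
          exact ⟨hw.1, hw.2.1⟩
        refine ⟨⟨⟨w, hwv⟩, (hmem _).2 ?_⟩, rfl⟩
        intro h
        exact hw.2.2 ((hUm w).2 ⟨⟨w, hwv⟩, h, rfl⟩)
      · intro p q hpq hne
        rw [hH, SimpleGraph.Subgraph.coe_adj, SimpleGraph.Subgraph.deleteVerts_adj]
        refine ⟨Set.mem_univ _, (hmem _).1 p.2, Set.mem_univ _, (hmem _).1 q.2, ?_⟩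
        rw [SimpleGraph.Subgraph.top_adj, SimpleGraph.comap_adj, hG', SimpleGraph.fromEdgeSet_adj]
        exact ⟨Finset.mem_coe.2 hpq, fun h => hne (Subtype.ext (Subtype.ext h))⟩
      · intro c hc
        have h2 := tough_lt h hc (Finset.mem_insert_self a (insert v U))
          (Finset.mem_insert_of_mem (Finset.mem_insert_self v U)) hav hy
        rw [hScard] at h2
        omega
    have h2 := T1b_odd_le H _ h1
    have h3 : H.oddComponents.ncard = u.ncard + 1 := by omega
    have h4 := SimpleGraph.odd_ncard_oddComponents (G := H)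
    have h5 : Nat.card ((⊤ : (G'.induce ({a, v}ᶜ : Set V)).Subgraph).deleteVerts u).verts + u.ncard + 2 =
        Fintype.card V := by
      have h6 : ((⊤ : (G'.induce ({a, v}ᶜ : Set V)).Subgraph).deleteVerts u).verts = uᶜ := by
        ext w
        rw [hmem, Set.mem_compl_iff]
      rw [h6, Nat.card_coe_set_eq]
      have h7 := Set.ncard_add_ncard_compl u
      have h8 : Nat.card ({a, v}ᶜ : Set V) + 2 = Fintype.card V := by
        rw [Nat.card_coe_set_eq]
        have h9 := Set.ncard_add_ncard_compl ({a, v} : Set V)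
        rw [Set.ncard_pair hav, Nat.card_eq_fintype_card] at h9
        omega
      omega
    rw [h3] at h4
    rw [← h5] at heven
    rw [Nat.even_iff] at heven
    rcases Nat.even_or_odd (u.ncard) with he | ho
    · have h6 := h4.1 he.add_one
      rw [Nat.odd_iff] at h6
      rw [Nat.even_iff] at he
      omega
    · have h6 : ¬ Odd (Nat.card ((⊤ : (G'.induce ({a, v}ᶜ : Set V)).Subgraph).deleteVerts u).verts) := by
        intro h
        have := h4.2 h
        rw [Nat.odd_iff] at this ho
        omega
      rw [Nat.odd_iff] at h6 ho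
      omega
  obtain ⟨M, hM⟩ := key
  refine ⟨M.map (SimpleGraph.Embedding.induce ({a, v}ᶜ : Set V)).toHom, ?_, ?_⟩
  · exact hM.1.map _ Subtype.val_injective
  · rw [SimpleGraph.Subgraph.map_verts, (SimpleGraph.Subgraph.isSpanning_iff).1 hM.2, Set.image_univ]
    ext w
    simp

/-- A matching as an involution. -/
theorem exists_invol {G : Finset (Sym2 V)} (M : (SimpleGraph.fromEdgeSet (G : Set (Sym2 V))).Subgraph)
    (hM : M.IsMatching) : ∃ f : V → V, (∀ w, f (f w) = w) ∧ (∀ w, w ∉ M.verts → f w = w) ∧
      ∀ w, w ∈ M.verts → f w ≠ w ∧ s(w, f w) ∈ G ∧ f w ∈ M.verts := by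
  classical
  let f : V → V := fun w => if h : w ∈ M.verts then (hM h).choose else w
  have h1 : ∀ w (h : w ∈ M.verts), M.Adj w (f w) := by
    intro w h
    simp only [f, h, dif_pos]
    exact (hM h).choose_spec.1
  have h2 : ∀ w, w ∉ M.verts → f w = w := by
    intro w h
    simp only [f, h, dif_neg, not_false_iff]
  refine ⟨f, ?_, h2, ?_⟩
  · intro w
    by_cases h : w ∈ M.verts
    · have h3 := h1 w h
      have h4 : f w ∈ M.verts := h3.symm.fst_mem
      have h5 := h1 (f w) h4
      exact (hM h4).unique h5 h3.symm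
    · rw [h2 w h, h2 w h]
  · intro w h
    have h3 := h1 w h
    have h4 := h3.adj_sub
    rw [SimpleGraph.fromEdgeSet_adj] at h4
    exact ⟨fun h5 => h4.2 h5.symm, Finset.mem_coe.1 h4.1, h3.symm.fst_mem⟩

/-- Across every cut there is an edge of positive weight. -/
theorem cut_pos {G : Finset (Sym2 V)} {y : Sym2 V → ℝ} (h : FracHam G y) (S : Finset V) (hS : S.Nonempty)
    (hu : S ≠ univ) : ∃ a ∈ S, ∃ v, v ∉ S ∧ a ≠ v ∧ 0 < y s(a, v) ∧ s(a, v) ∈ G := by
  have h1 := h.cut S hS hu
  obtain ⟨e, _, he⟩ : ∃ e ∈ univ, 0 < y e * px e S := by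
    by_contra hno
    push Not at hno
    have : cutw y S ≤ 0 := Finset.sum_nonpos hno
    linarith
  have h2 : 0 < y e := by
    rcases (h.nonneg e).lt_or_eq with h3 | h3
    · exact h3
    · rw [← h3, zero_mul] at he
      exact absurd he (lt_irrefl _)
  have h3 : px e S ≠ 0 := by
    intro h4
    rw [h4, mul_zero] at he
    exact absurd he (lt_irrefl _)
  unfold px at h3
  split_ifs at h3 with h4
  · obtain ⟨a, ha, b, hb, rfl⟩ := h4
    refine ⟨a, ha, b, hb, ?_, h2, ?_⟩
    · rintro rfl
      exact hb ha
    · by_contra h5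
      rw [h.supp _ h5] at h2
      exact lt_irrefl _ h2
  · exact absurd rfl h3

/-- THEOREM W. If `G` carries a fractional Hamiltonian cycle, it has a closed walk through all vertices with at most
`3 n / 2 - 1` steps. -/
theorem walk {G : Finset (Sym2 V)} {y : Sym2 V → ℝ} (h : FracHam G y) (v0 : V) :
    ∃ p : (SimpleGraph.fromEdgeSet (G : Set (Sym2 V))).Walk v0 v0, (∀ w, w ∈ p.support) ∧
      2 * p.length + 2 ≤ 3 * Fintype.card V := by
  classical
  have hcon : ∀ S : Finset V, S.Nonempty → S ≠ univ → ∃ a ∈ S, ∃ b, b ∉ S ∧ s(a, b) ∈ G := by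
    intro S hS hu
    obtain ⟨a, ha, v, hv, _, _, hG⟩ := cut_pos h S hS hu
    exact ⟨a, ha, v, hv, hG⟩
  rcases Nat.even_or_odd (Fintype.card V) with hev | hod
  · -- even
    obtain ⟨M, hM⟩ := perfect_even h.loop (tough h) hcon hev
    obtain ⟨f, hf, _, hf1⟩ := exists_invol M hM.1
    have hf2 : ∀ w, f w ≠ w ∧ s(w, f w) ∈ G := by
      intro w
      have h1 := hf1 w (hM.2 w)
      exact ⟨h1.1, h1.2.1⟩
    have hT : TJ G 0 ({v0, f v0} : Finset V) := TJ.two (hf2 v0).1.symm (hf2 v0).2
    have hall : TJ G 0 (univ : Finset V) := by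
      refine hT.all (M := f) hf ?_ (fun w _ => hf2 w) ?_ ⟨v0, by simp⟩
      · intro w hw
        rw [Finset.mem_insert, Finset.mem_singleton] at hw ⊢
        rcases hw with rfl | rfl
        · exact Or.inr rfl
        · exact Or.inl (hf v0)
      · intro H' hne hu
        obtain ⟨a, ha, v, hv, hav, hy, hG⟩ := cut_pos h H' hne hu
        obtain ⟨M', hM', hMv⟩ := perfect_pair h hev hav hy
        obtain ⟨g, hg, hg0, hg1⟩ := exists_invol M' hM'
        have hva : ∀ w, w ∈ M'.verts ↔ w ≠ a ∧ w ≠ v := by
          intro w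
          rw [hMv, Set.mem_compl_iff, Set.mem_insert_iff, Set.mem_singleton_iff, not_or]
        refine ⟨a, ha, v, hv, hG, fun w => if w = a then v else if w = v then a else g w, ?_, ?_, ?_⟩
        · intro w
          by_cases h1 : w = a
          · subst h1
            simp [hav.symm]
          · by_cases h2 : w = v
            · subst h2
              simp [h1]
            · have h3 := (hg1 w ((hva w).2 ⟨h1, h2⟩)).2.2
              rw [hva] at h3
              simp only [h1, h2, if_false, h3.1, h3.2, hg]
        · intro w hwv hwH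
          have h1 : w ≠ a := by
            rintro rfl
            exact hwH ha
          have h3 := hg1 w ((hva w).2 ⟨h1, hwv⟩)
          simp only [h1, hwv, if_false]
          exact ⟨h3.1, h3.2.1⟩
        · right
          simp [hav.symm, ha]
    obtain ⟨p, hp, hl⟩ := walk_of_TJ h.loop hcon hall v0
    exact ⟨p, hp, by omega⟩
  · -- odd
    obtain ⟨M, hM, hMv⟩ := perfect_odd h.loop (tough h) hod v0
    obtain ⟨f, hf, hf0, hf1⟩ := exists_invol M hM
    have hvm : ∀ w, w ∈ M.verts ↔ w ≠ v0 := by
      intro w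
      rw [hMv, Set.mem_compl_iff, Set.mem_singleton_iff]
    have hT : TJ G 1 ({v0} : Finset V) := TJ.one G v0
    have hall : TJ G 1 (univ : Finset V) := by
      refine hT.all (M := f) hf ?_ ?_ ?_ ⟨v0, by simp⟩
      · intro w hw
        rw [Finset.mem_singleton] at hw ⊢
        rw [hw]
        exact hf0 v0 (fun h1 => (hvm v0).1 h1 rfl)
      · intro w hw
        rw [Finset.mem_singleton] at hw
        have h1 := hf1 w ((hvm w).2 hw)
        exact ⟨h1.1, h1.2.1⟩
      · intro H' hne hu
        obtain ⟨a, ha, v, hv, hav, hy, hG⟩ := cut_pos h H' hne hu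
        obtain ⟨M', hM', hMv'⟩ := perfect_odd h.loop (tough h) hod v
        obtain ⟨g, hg, hg0, hg1⟩ := exists_invol M' hM'
        have hva : ∀ w, w ∈ M'.verts ↔ w ≠ v := by
          intro w
          rw [hMv', Set.mem_compl_iff, Set.mem_singleton_iff]
        refine ⟨a, ha, v, hv, hG, g, hg, ?_, Or.inl (hg0 v (fun h1 => (hva v).1 h1 rfl))⟩
        intro w hwv _
        have h1 := hg1 w ((hva w).2 hwv)
        exact ⟨h1.1, h1.2.1⟩
    obtain ⟨p, hp, hl⟩ := walk_of_TJ h.loop hcon hall v0
    exact ⟨p, hp, by omega⟩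

end H44Z
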